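import Pool.Agent.OVW.StmtsB8
import Pool.Agent.OVW.B.Mean

/-!
# Block B, Lemma 10: the line for one tuple (B10a)
-/

namespace Pool.Agent.OVW

open Classical

set_option linter.unusedSectionVars false

namespace B10a

variable {M : Type} [Arith M] [HasWorld M]

/-- the test words for the set `D` -/
noncomputable def UU (k : M) (w : Wd M) : FSet M (Wd M) :=
  {wnil} ∪ (rng k).image (fun a => wsub k w a)

theorem mem_UU {k : M} {w u : Wd M} : u ∈ UU k w ↔ u = wnil ∨ ∃ a < k, wsub k w a = u := by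
  obtain ⟨R, hR⟩ := HasWorld.ex (M := M)
  unfold UU
  rw [mem_union, mem_singleton, mem_image (R := R) (f := fun a => wsub k w a) (by fun_prop)]
  simp only [mem_rng]

theorem forall_UU {k : M} {w : Wd M} {p : Wd M → Prop} :
    (∀ u ∈ UU k w, p u) ↔ p wnil ∧ ∀ a < k, p (wsub k w a) := by
  constructor
  · intro h
    exact ⟨h _ (mem_UU.2 (Or.inl rfl)), fun a ha => h _ (mem_UU.2 (Or.inr ⟨a, ha, rfl⟩))⟩
  · rintro ⟨h1, h2⟩ u hu
    rcases mem_UU.1 hu with rfl | ⟨a, ha, rfl⟩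
    · exact h1
    · exact h2 a ha

end B10a

open B10a in
theorem B10a_thm (h2 : Stmt_B2) (hE : Stmt_BE) : Stmt_B10a := by
  intro M _ _ R _ k h n N s B d eps Ω _ S T E Wf hk hh hd hD hS heps hrE hdE hrW hW hn Z hZ
  obtain ⟨hE1, hE2⟩ := hE M R k s Wf hrW
  have hbd := hE2 B h hW Z hZ
  have hrT := hS.recT
  have hk1 : k < k + 1 := lt_succ.2 le_rfl
  -- the density
  have h3 : ∀ z ∈ Wlt k h, d ≤ hpr S (fun ω => E (T ω (eW k s Wf Z z))) := by
    intro z hz
    obtain ⟨hz1, hz2⟩ := mem_Wlt.1 hz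
    have hz3 : z ∈ W (k + 1) z.len := mem_W.2 ⟨rfl, fun i hi => (hz2 i hi).trans hk1⟩
    obtain ⟨h4, h5⟩ := hbd z hz3 hz1.le
    refine hdE.trans (hS.dens E hrE _ (mem_Wlt.2 ⟨?_, (mem_W.1 h4).2⟩))
    refine lt_of_le_of_lt (h5.trans ?_) hn
    have h6 : z.len ≤ 2 * h + 1 := by
      have : h ≤ 2 * h + 1 := by rw [two_mul, add_assoc]; exact le_self_add
      exact hz1.le.trans this
    gcongr
  obtain ⟨p, hp, h4⟩ := h2 M R Ω S k h d (fun ω z => E (T ω (eW k s Wf Z z))) hk hh hd hS.ne hD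
    (by fun_prop) h3
  refine ⟨p, hp, ?_⟩
  obtain ⟨x, v⟩ := p
  unfold lineSet at hp
  rw [mem_filter (R := R) (by fun_prop), mem_prod] at hp
  obtain ⟨⟨hx, hv⟩, hxv⟩ := hp
  dsimp only at hx hv hxv h4 ⊢
  obtain ⟨hx1, hx2⟩ := mem_Wlt.1 hx
  obtain ⟨hv1, hv2⟩ := mem_Wlt.1 hv
  have hx3 : x ∈ W (k + 1) x.len := mem_W.2 ⟨rfl, fun i hi => (hx2 i hi).trans hk1⟩
  obtain ⟨q, hq⟩ := le_iff_exists_add.1 (succ_le.2 hx1)
  have hvq : v.len < q := by
    rw [hq] at hxv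
    exact lt_of_add_lt_add_left hxv
  obtain ⟨hX1, hX2⟩ := hbd x hx3 hx1.le
  -- the words
  have e1 : s * h - s * x.len = s + s * q := by
    rw [hq, show s * (x.len + 1 + q) = s * x.len + (s + s * q) by ring, add_sub_self']
  have e2 : s * h - s * (x.len + 1) = s * q := by
    rw [hq, mul_add s (x.len + 1) q, add_sub_self']
  have hZ1 : Z.drop (s * x.len) ∈ W (k + 1) (s + s * q) := by
    rw [← e1]; exact drop_mem_W hZ
  have hZ2 : Z.drop (s * (x.len + 1)) ∈ W (k + 1) (s * q) := by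
    rw [← e2]; exact drop_mem_W hZ
  have hw1 := hW _ (take_mem_W (n := s) hZ1 le_self_add)
  have hw2 := hE2 B q hW _ hZ2 v (mem_W.2 ⟨rfl, hv2⟩) hvq.le
  obtain ⟨w, hw⟩ : ∃ w : Wd M, w = Wf ((Z.drop (s * x.len)).take s) ++
      eW k s Wf (Z.drop (s * (x.len + 1))) v := ⟨_, rfl⟩
  obtain ⟨X, hX⟩ : ∃ X : Wd M, X = eW k s Wf Z x := ⟨_, rfl⟩
  rw [← hw]
  have hwlen : w.len ≤ B + v.len * B := by
    rw [hw, len_append]
    exact add_le_add hw1.2 hw2.2
  rw [← hX] at hX1 hX2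
  have hlen : X.len + w.len < n := by
    refine lt_of_le_of_lt (add_le_add hX2 hwlen) (lt_of_le_of_lt ?_ hn)
    have h6 : x.len + 1 + v.len ≤ 2 * h + 1 := by
      have : h ≤ 2 * h + 1 := by rw [two_mul, add_assoc]; exact le_self_add
      exact hxv.le.trans this
    calc x.len * B + (B + v.len * B) = (x.len + 1 + v.len) * B := by ring
      _ ≤ (2 * h + 1) * B := by gcongr
  -- the events
  have h5 : ∀ ω, IsLine k x v (fun z => E (T ω (eW k s Wf Z z))) ↔
      ∀ u ∈ UU k w, E (T ω (X ++ u)) := by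
    intro ω
    rw [forall_UU (p := fun u => E (T ω (X ++ u)))]
    unfold IsLine
    rw [append_nil, hX]
    refine and_congr Iff.rfl (forall_congr' fun a => imp_congr Iff.rfl ?_)
    dsimp only
    rw [hE1 Z x v a, ← hw]
  have h7 : ∀ ω, DD k E (T ω) w ↔ ∀ u ∈ UU k w, E (T ω u) := by
    intro ω
    rw [forall_UU (p := fun u => E (T ω u))]
    rfl
  have h8 := hS.shift E hrE X (mem_Wlt.2 ⟨lt_of_le_of_lt le_self_add hlen, (mem_W.1 hX1).2⟩)
    (UU k w) (by
      intro u hu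
      rcases mem_UU.1 hu with rfl | ⟨a, _, rfl⟩
      · rw [len_wnil, add_zero]
        exact lt_of_le_of_lt le_self_add hlen
      · rw [len_wsub]
        exact hlen)
  rw [← hpr_congr (fun ω _ => h5 ω), ← hpr_congr (fun ω _ => h7 ω)] at h8
  linarith

end Pool.Agent.OVW
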