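import Pool.Agent.OVW.StmtsB8
import Pool.Agent.OVW.B.Mean

/-!
# B10c: the choice of all words `g_s` (Lemma 10)
-/

namespace Pool.Agent.OVW

open Classical

set_option linter.unusedSectionVars false

variable {M : Type} [Arith M] [HasWorld M] {R : Set (M → M)} [IsWorld R]

namespace B10c

/-- the function with value `wnil` above `m` -/
noncomputable def cut (m : M) (G : FFun M M (Wd M)) (i : M) : Wd M := if i ≤ m then G i else wnil

@[fun_prop] theorem Rec.cut {γ : Type} [Cod M γ] {m i : γ → M} {G : γ → FFun M M (Wd M)}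
    (h1 : Rec R m) (h2 : Rec R G) (h3 : Rec R i) :
    Rec R (fun x => cut (m x) (G x) (i x)) := by
  unfold B10c.cut; fun_prop

/-- `TTw` of a word which is not empty, or of the empty word, after a change of the last value. -/
theorem TTw_last (ht : Stmt_BT1) (k h q : M) (g g' : M → Wd M) (w : Wd M) (hg : Rec R g)
    (hg' : Rec R g') (h1 : ∀ i < q, g i = g' i) (h2 : g q = wnil) (h3 : g' q = w) (z : Wd M)
    (hz : z.len = q) : TTw k g' z = TTw k g z ++ w := by
  obtain ⟨a1, -, a3, -, -, -⟩ := ht M R k h g hg
  obtain ⟨b1, -, -, -, -, -⟩ := ht M R k h g' hg'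
  rcases cases_succ q with hq | ⟨q1, hq⟩
  · have hz0 : z = wnil := len_eq_zero.1 (hz.trans hq)
    subst hz0
    unfold TTw
    rw [len_wnil, wjoin_zero, wjoin_zero, append_nil, append_nil]
    rw [hq] at h2 h3
    rw [h2, h3, append_nil]
  · have hpos : 0 < z.len := by rw [hz, hq]; exact lt_succ.2 (zero_le' _)
    obtain ⟨v, c, rfl⟩ := exists_snoc hpos
    have hv : v.len + 1 = q := by rw [← hz, len_append, len_wsing]
    rw [a1, b1, hv, h2, h3, append_nil, a3 g' v hg' (fun i hi => h1 i (by
      rw [← hv]
      exact lt_succ.2 hi))]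

end B10c

open B10c in
theorem B10c_thm (hb : Stmt_B10b) (ht : Stmt_BT1) : Stmt_B10c := by
  intro M _ _ R _ k h n N m d eps Ω _ S T E hk hh hd hD hT heps hE hdE hn
  obtain ⟨-, -, -, ⟨hL0, hLs, hLm⟩, -, -⟩ := ht M R k h (fun _ => wnil) (by fun_prop)
  have recT := hT.recT
  set c0 : KK M := d / 2 / (lineSet k h).card / 2 / (lineSet k h).card with hc0
  have key : ∀ q ≤ m + 1, ∃ G : FFun M M (Wd M),
      (∀ i ≤ m, G i ∈ W (k + 1) (G i).len ∧ (G i).len ≤ h * Len h i ∧ (q ≤ i → G i = wnil)) ∧
      ∀ s < q, c0 ≤
        havg (W (k + 1) s) (fun z => hpr S (fun ω => DD k E (T ω) (TTw k (cut m G) z))) := by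
    apply ind_sig1_lt (R := R) (α := FFun M M (Wd M)) (q := fun q G =>
      (∀ i ≤ m, G i ∈ W (k + 1) (G i).len ∧ (G i).len ≤ h * Len h i ∧ (q ≤ i → G i = wnil)) ∧
      ∀ s < q, c0 ≤
        havg (W (k + 1) s) (fun z => hpr S (fun ω => DD k E (T ω) (TTw k (cut m G) z))))
    · fun_prop
    · refine ⟨ffun (rng (m + 1)) (fun _ => wnil), fun i hi => ?_, fun s hs => ?_⟩
      · have e : (ffun (rng (m + 1)) (fun _ : M => (wnil : Wd M))) i = wnil :=
          ffun_apply (R := R) (by fun_prop) (mem_rng.2 (lt_succ.2 hi))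
        rw [e, len_wnil]
        exact ⟨wnil_mem_W _, zero_le' _, fun _ => rfl⟩
      · exact absurd hs (not_lt.2 (zero_le' s))
    · rintro q hq ⟨G, hG1, hG2⟩
      have hqm : q ≤ m := lt_succ.1 hq
      have recg : Rec R (cut m G) := by fun_prop
      have hgW : ∀ i, cut m G i ∈ W (k + 1) (cut m G i).len := by
        intro i
        unfold cut
        by_cases hi : i ≤ m
        · rw [if_pos hi]
          exact (hG1 i hi).1
        · rw [if_neg hi, len_wnil]
          exact wnil_mem_W _
      have hgL : ∀ i, (cut m G i).len ≤ h * Len h i := by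
        intro i
        unfold cut
        by_cases hi : i ≤ m
        · rw [if_pos hi]
          exact (hG1 i hi).2.1
        · rw [if_neg hi, len_wnil]
          exact zero_le' _
      have hgq : cut m G q = wnil := by
        unfold cut
        rw [if_pos hqm]
        exact (hG1 q hqm).2.2 le_rfl
      obtain ⟨a1, -, a3, -, a5, a6⟩ := ht M R k h (cut m G) recg
      have recW : Rec R (TTw k (cut m G)) := by fun_prop
      have hW : ∀ z ∈ W (k + 1) q, TTw k (cut m G) z ∈ W (k + 1) (TTw k (cut m G) z).len ∧
          (TTw k (cut m G) z).len ≤ Len h q := by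
        intro z hz
        have hzl : z.len = q := (mem_W.1 hz).1
        refine ⟨a5 hgW z (by rw [hzl]; exact hz), ?_⟩
        have h1 := (a6 hgL z).2 (by rw [hzl]; exact hgq)
        rwa [hzl] at h1
      have hlt : (2 * h + 1) * Len h q < n :=
        lt_of_le_of_lt (mul_le_mul_right (hLm q m hqm) _) hn
      obtain ⟨w, hw1, hw2, hw3⟩ := hb M R k h n N q (Len h q) d eps Ω S T E (TTw k (cut m G))
        hk hh hd hD hT heps hE hdE recW hW hlt
      have recG' : Rec R (fun i : M => if i = q then w else G i) := by fun_prop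
      set G' : FFun M M (Wd M) := ffun (rng (m + 1)) (fun i => if i = q then w else G i) with hG'
      have hG'a : ∀ i ≤ m, G' i = if i = q then w else G i := fun i hi =>
        ffun_apply (R := R) recG' (mem_rng.2 (lt_succ.2 hi))
      have recg' : Rec R (cut m G') := by fun_prop
      have e1 : ∀ i, i ≠ q → cut m G i = cut m G' i := by
        intro i hi
        unfold cut
        by_cases him : i ≤ m
        · rw [if_pos him, if_pos him, hG'a i him, if_neg hi]
        · rw [if_neg him, if_neg him]
      have e2 : cut m G' q = w := by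
        unfold cut
        rw [if_pos hqm, hG'a q hqm, if_pos rfl]
      refine ⟨G', fun i hi => ?_, fun s hs => ?_⟩
      · rw [hG'a i hi]
        by_cases hiq : i = q
        · rw [if_pos hiq]
          refine ⟨hw1, by rw [hiq]; exact hw2, fun hle => ?_⟩
          rw [hiq] at hle
          exact absurd (succ_le.1 hle) (lt_irrefl _)
        · rw [if_neg hiq]
          exact ⟨(hG1 i hi).1, (hG1 i hi).2.1, fun hle => (hG1 i hi).2.2 (succ_le.1 hle).le⟩
      · rcases (lt_succ.1 hs).lt_or_eq with h1 | h1
        · refine (hG2 s h1).trans (le_of_eq ?_)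
          refine havg_congr fun z hz => ?_
          have hzl : z.len = s := (mem_W.1 hz).1
          rw [a3 (cut m G') z recg' (fun i hi => e1 i (by
            rw [hzl] at hi
            exact (lt_of_le_of_lt hi h1).ne))]
        · subst h1
          refine hw3.trans (le_of_eq ?_)
          refine havg_congr fun z hz => ?_
          have hzl : z.len = s := (mem_W.1 hz).1
          rw [TTw_last ht k h s (cut m G) (cut m G') w recg recg'
            (fun i hi => e1 i hi.ne) hgq e2 z hzl]
  obtain ⟨G, hG1, hG2⟩ := key (m + 1) le_rfl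
  refine ⟨cut m G, by fun_prop, fun i => ?_, fun i => ?_, fun s hs => hG2 s (lt_succ.2 hs)⟩
  · unfold cut
    by_cases hi : i ≤ m
    · rw [if_pos hi]
      exact (hG1 i hi).1
    · rw [if_neg hi, len_wnil]
      exact wnil_mem_W _
  · unfold cut
    by_cases hi : i ≤ m
    · rw [if_pos hi]
      exact (hG1 i hi).2.1
    · rw [if_neg hi, len_wnil]
      exact zero_le' _

end Pool.Agent.OVW
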