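import Pool.Agent.OVW.StmtsB8

/-!
# B10d: `E'` and `D` are disjoint
-/

set_option autoImplicit false

open Classical

namespace Pool.Agent.OVW

namespace B10d

variable {M : Type} [Arith M] [HasWorld M]

theorem sub_sub_var {k : M} {v : Wd M} (hv : ∀ i < v.len, v.get i < k + 1) (c : M) :
    wsub (k + 1) (wsub k v (k + 1)) c = wsub k v c := by
  refine Wd.ext' (by rw [len_wsub, len_wsub, len_wsub]) fun i hi => ?_
  rw [len_wsub, len_wsub] at hi
  rw [get_wsub (by rw [len_wsub]; exact hi), get_wsub hi, get_wsub hi]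
  by_cases h1 : v.get i = k
  · rw [if_pos h1, if_pos rfl, if_pos h1]
  · rw [if_neg h1, if_neg (hv i hi).ne, if_neg h1]

end B10d

open B10d in
theorem B10d_thm : Stmt_B10d := by
  intro M _ _ R _ k n N E T v hk hE hT hfree htree hv hD hmem
  obtain ⟨hmap, -, ht1, -⟩ := htree
  rw [mem_Wlt] at hv
  obtain ⟨hlen, hlet⟩ := hv
  rw [len_append, len_wsing] at hlen hlet
  have hlet' : ∀ i < v.len, v.get i < k + 1 := by
    intro i hi
    have h1 := hlet (1 + i) (add_lt_add_right hi 1)
    have h2 : (wsing k ++ v).get (1 + i) = v.get i := by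
      have := get_append_right (u := wsing k) (v := v) i
      rwa [len_wsing] at this
    rwa [h2] at h1
  have hnil : (wnil : Wd M) ∈ Wlt (k + 1) n := by
    rw [mem_Wlt, len_wnil]
    exact ⟨lt_of_le_of_lt (zero_le' _) hlen, fun i hi => absurd hi (not_lt.2 (zero_le' _))⟩
  have hw : wsub k v (k + 1) ∈ Wlt (k + 1 + 1) n := by
    rw [mem_Wlt, len_wsub]
    refine ⟨lt_of_le_of_lt le_add_self hlen, fun i hi => ?_⟩
    rw [get_wsub hi]
    split_ifs
    · exact lt_add_one _
    · exact (hlet' i hi).trans (lt_add_one _)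
  obtain ⟨v', hv', hl, h1⟩ := ht1 wnil hnil _ hw (by
    rw [len_wnil, len_wsub, zero_add]
    exact hlen)
  refine hfree (T wnil) (hmap wnil hnil) v' hv' hl ⟨hD.1, fun c hc => ?_⟩
  rw [← h1 c hc, sub_sub_var hlet', nil_append]
  rcases lt_or_eq_of_le (lt_succ.1 hc) with h5 | h5
  · have h6 := hD.2 c h5
    rwa [wsub_append, wsub_wsing_self] at h6
  · rw [h5, wsub_self]
    exact hmem

end Pool.Agent.OVW
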