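import Pool.Agent.OVW.StmtsB8

/-! # B10e: the decomposition of the complement of `D` -/

set_option autoImplicit false

namespace Pool.Agent.OVW

open Classical

set_option linter.unusedSectionVars false

/-- B10e (the decomposition of the complement of `D`). -/
theorem B10e_thm : Stmt_B10e := by
  intro M _ _ R _ k E T Wf hE hT hW
  constructor
  · intro z hz
    by_cases h : ∀ a < k, E (T (wsub k (Wf z) a))
    · have h1 : ¬ ¬ DD k E T (Wf z) := not_not.2 ⟨hz, h⟩
      have h2 : ∀ j ∈ rng k, ind M (∀ i < k, GG k E T Wf j i z) = 0 := by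
        intro j hj
        rw [mem_rng] at hj
        unfold ind
        rw [if_neg]
        intro h3
        exact (h3 j hj).2 rfl (h j hj)
      rw [hsum_congr h2, hsum_zero]
      unfold ind
      rw [if_neg h1]
    · have h1 : ¬ DD k E T (Wf z) := fun h2 => h h2.2
      push Not at h
      obtain ⟨j0, ⟨hj0, hEj0⟩, hmin⟩ := least_rec (R := R)
        (p := fun j => j < k ∧ ¬ E (T (wsub k (Wf z) j))) (by fun_prop) h
      have hmin' : ∀ i < j0, E (T (wsub k (Wf z) i)) := by
        intro i hi
        by_contra hc
        exact hmin i hi ⟨hi.trans hj0, hc⟩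
      have h2 : ∀ j ∈ rng k, ind M (∀ i < k, GG k E T Wf j i z) =
          if j = j0 then (1 : KK M) else 0 := by
        intro j hj
        rw [mem_rng] at hj
        unfold ind
        by_cases hjj : j = j0
        · rw [if_pos hjj, if_pos]
          intro i _
          refine ⟨fun hi => hmin' i (hjj ▸ hi), fun hi => ?_⟩
          rw [hi, hjj]
          exact hEj0
        · rw [if_neg hjj, if_neg]
          intro h3
          rcases lt_or_gt_of_ne hjj with h4 | h4
          · exact (h3 j hj).2 rfl (hmin' j h4)
          · exact hEj0 ((h3 j0 hj0).1 h4)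
      have h5 := hsum_ite_eq (S := rng k) (mem_rng.2 hj0) (1 : KK M)
      rw [hsum_congr h2]
      unfold ind
      rw [if_pos h1]
      refine Eq.trans h5.symm (hsum_congr fun a _ => ?_)
      by_cases ha : a = j0
      · rw [if_pos ha, if_pos ha]
      · rw [if_neg ha, if_neg ha]
  · intro m n j i hi hTr x hx y hy hxy hG
    have h1 := hTr.2.2.2 i hi x hx y hy hxy
    unfold GG at hG ⊢
    rw [← h1]
    exact hG

end Pool.Agent.OVW
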