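import Pool.Agent.OVW.StmtsB8
import Pool.Agent.OVW.B.Mean

/-! # B10f: the average over the embeddings -/

namespace Pool.Agent.OVW

open Classical

set_option linter.unusedSectionVars false

theorem B10f_thm (hd : Stmt_B10d) (ht : Stmt_BT1)
    (h02 : ∀ (M : Type) [Arith M] [HasWorld M] (R : Set (M → M)) [IsWorld R], StmtB02 R) :
    Stmt_B10f := by
  intro M _ _ R _ k n N m θ u ga0 ga eps Ω _ S T E g hk hS hE hg _ hfree hθ hu hga heps h8 _ hTT
    hDD
  have hκ : 0 < k + 1 := lt_succ.2 (zero_le' k)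
  have hm1 : 0 < m + 1 := lt_succ.2 (zero_le' m)
  have μS := mean_havg R hS.ne
  have μF := mean_FW R hκ hm1
  have hT : Rec R (fun p : Ω × Wd M => T p.1 p.2) := hS.recT
  have hθ0 : 0 ≤ θ := by
    rw [hθ]
    unfold FW
    refine havg_nonneg (R := R) (by fun_prop) fun l _ => ?_
    exact havg_nonneg (R := R) (by fun_prop) fun x _ => ind_nonneg _
  -- the sets are disjoint
  have h1 : ∀ ω ∈ S, ∀ z ∈ Wlt (k + 1) (m + 1), ind M (¬ DD k E (T ω) (TTw k g z)) *
      (ind M (E (T ω (TTw k g z))) - u) =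
        ind M (E (T ω (TTw k g z))) - u + u * ind M (DD k E (T ω) (TTw k g z)) := by
    intro ω hω z hz
    by_cases h2 : DD k E (T ω) (TTw k g z)
    · have h3 : ¬ E (T ω (TTw k g z)) := by
        obtain ⟨v, hv⟩ := (ht M R k 0 g hg).2.1 z
        have hTω : Rec R (T ω) := by fun_prop
        have h4 := hTT z hz
        rw [hv] at h2 h4 ⊢
        exact hd M R k n N E (T ω) v hk hE hTω hfree (hS.tree ω hω) h4 h2
      rw [ind_false (not_not.2 h2), ind_true h2, ind_false h3]
      ring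
    · rw [ind_true h2, ind_false h2]
      ring
  -- the average
  have h2 : havg S (fun ω => FW (k + 1) (m + 1) (fun z => ind M (¬ DD k E (T ω) (TTw k g z)) *
      (ind M (E (T ω (TTw k g z))) - u))) =
      FW (k + 1) (m + 1) (fun z => hpr S (fun ω => E (T ω (TTw k g z)))) - u +
        u * FW (k + 1) (m + 1) (fun z => hpr S (fun ω => DD k E (T ω) (TTw k g z))) := by
    rw [(h02 M R).2.2 Ω S (k + 1) (m + 1) (fun ω z => ind M (¬ DD k E (T ω) (TTw k g z)) *
      (ind M (E (T ω (TTw k g z))) - u)) (by fun_prop)]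
    rw [← μF.smul _ _ (by fun_prop), ← μF.sub_const (by fun_prop), ← μF.add _ _ (by fun_prop)
      (by fun_prop)]
    refine μF.congr _ _ fun z hz => ?_
    rw [hpr_eq_havg_ind, hpr_eq_havg_ind, ← μS.smul _ _ (by fun_prop),
      ← μS.sub_const (by fun_prop), ← μS.add _ _ (by fun_prop) (by fun_prop)]
    exact μS.congr _ _ fun ω hω => h1 ω hω z hz
  have h3 : θ - eps ≤ FW (k + 1) (m + 1) (fun z => hpr S (fun ω => E (T ω (TTw k g z)))) := by
    refine μF.ge_of (by fun_prop) fun z hz => ?_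
    rw [hθ]
    exact hS.dens E hE _ (hTT z hz)
  have h4 : ga0 ≤ FW (k + 1) (m + 1)
      (fun z => hpr S (fun ω => DD k E (T ω) (TTw k g z))) := by
    unfold FW
    refine (mean_rng R hm1).ge_of (by fun_prop) fun s hs => ?_
    exact hDD s (lt_succ.1 (mem_rng.1 hs))
  have hu0 : θ ≤ u := by rw [hu]; linarith
  have h5 : θ * ga0 ≤ u * FW (k + 1) (m + 1)
      (fun z => hpr S (fun ω => DD k E (T ω) (TTw k g z))) := by
    calc θ * ga0 ≤ θ * FW (k + 1) (m + 1)
          (fun z => hpr S (fun ω => DD k E (T ω) (TTw k g z))) :=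
          mul_le_mul_of_nonneg_left h4 hθ0
      _ ≤ _ := by
          refine mul_le_mul_of_nonneg_right hu0 ?_
          exact μF.nonneg (by fun_prop) fun z _ => hpr_nonneg (R := R) (by fun_prop)
  have h6 : 2 * ga ≤ havg S (fun ω => FW (k + 1) (m + 1) (fun z =>
      ind M (¬ DD k E (T ω) (TTw k g z)) * (ind M (E (T ω (TTw k g z))) - u))) := by
    rw [h2, hu]
    rw [hu] at h5
    linarith
  exact μS.ex_ge (by fun_prop) h6

end Pool.Agent.OVW
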