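import Pool.Agent.OVW.StmtsB8
import Pool.Agent.OVW.B.Mean

/-!
# B10g: the choice of the insensitive sets
-/

namespace Pool.Agent.OVW

open Classical

set_option linter.unusedSectionVars false

namespace B10g

variable {M : Type} [Arith M] [HasWorld M] {R : Set (M → M)} [IsWorld R]

theorem hsum_eq_havg {k : M} (hk : 0 < k) (F : M → KK M) :
    hsum (rng k) F = (k : KK M) * havg (rng k) F := by
  have h : (0 : KK M) < (k : KK M) := cK_pos.2 hk
  unfold havg
  rw [card_rng, mul_div_cancel₀ _ h.ne']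

theorem FW_havg (R : Set (M → M)) [IsWorld R] {Ω : Type} [Cod M Ω] (S : FSet M Ω) (κ n : M)
    (f : Ω → Wd M → KK M) (hf : Rec R (fun x : Ω × Wd M => f x.1 x.2)) :
    FW κ n (fun x => havg S (fun ω => f ω x)) = havg S (fun ω => FW κ n (f ω)) := by
  unfold FW
  rw [havg_comm (R := R) (f := fun ω l => havg (W κ l) (f ω)) (by fun_prop)]
  refine havg_congr fun l _ => ?_
  rw [havg_comm (R := R) (f := fun ω x => f ω x) hf]

end B10g

open B10g in
theorem B10g_thm (he : Stmt_B10e) : Stmt_B10g := by
  intro M _ _ R _ k n m u ga E T Wf hk hga hE hT hWf htree hle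
  have hκ : 0 < k + 1 := lt_succ.2 (zero_le' k)
  have hm : 0 < m + 1 := lt_succ.2 (zero_le' m)
  have hkK : (0 : KK M) < (k : KK M) := cK_pos.2 hk
  have hmean := mean_FW R hκ hm
  obtain ⟨he1, he2⟩ := he M R k E T Wf hE hT hWf
  by_cases hTe : E (T wnil)
  · have h1 : FW (k + 1) (m + 1)
        (fun z => ind M (¬ DD k E T (Wf z)) * (ind M (E (T (Wf z))) - u)) =
        (k : KK M) * havg (rng k) (fun j => FW (k + 1) (m + 1) (fun z =>
          ind M (∀ i < k, GG k E T Wf j i z) * (ind M (E (T (Wf z))) - u))) := by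
      rw [← FW_havg R (rng k) (k + 1) (m + 1) (fun j z =>
          ind M (∀ i < k, GG k E T Wf j i z) * (ind M (E (T (Wf z))) - u)) (by fun_prop),
        ← hmean.smul _ _ (by fun_prop)]
      refine hmean.congr _ _ fun z _ => ?_
      rw [he1 z hTe, ← hsum_mul_right (R := R) _ (by fun_prop), hsum_eq_havg hk]
    rw [h1] at hle
    have h2 : 2 * ga / (k : KK M) ≤ havg (rng k) (fun j => FW (k + 1) (m + 1) (fun z =>
          ind M (∀ i < k, GG k E T Wf j i z) * (ind M (E (T (Wf z))) - u))) := by
      rw [div_le_iff₀ hkK]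
      exact hle.trans (le_of_eq (mul_comm _ _))
    obtain ⟨j, _, h3⟩ := exists_le_of_le_havg (R := R) (by fun_prop) ⟨0, mem_rng.2 hk⟩ h2
    have hrec : Rec R (fun i : M => (Wlt (k + 1) (m + 1)).filter (GG k E T Wf j i)) := by
      fun_prop
    have hH : ∀ i < k, ffun (rng k) (fun i : M => (Wlt (k + 1) (m + 1)).filter
        (GG k E T Wf j i)) i = (Wlt (k + 1) (m + 1)).filter (GG k E T Wf j i) := fun i hi =>
      ffun_apply hrec (mem_rng.2 hi)
    refine ⟨ffun (rng k) (fun i : M => (Wlt (k + 1) (m + 1)).filter (GG k E T Wf j i)), ?_, ?_⟩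
    · intro i hi x hx y hy hxy hxH
      have hr : Rec R (GG k E T Wf j i) := by fun_prop
      rw [hH i hi] at hxH ⊢
      rw [mem_filter hr] at hxH ⊢
      exact ⟨hy, he2 (m + 1) n j i hi htree x hx y hy hxy hxH.2⟩
    · refine h3.trans (le_of_eq ?_)
      unfold score
      refine hmean.congr _ _ fun z hz => ?_
      have hiff : (∀ i < k, GG k E T Wf j i z) ↔ (∀ i < k, z ∈ ffun (rng k)
          (fun i : M => (Wlt (k + 1) (m + 1)).filter (GG k E T Wf j i)) i) := by
        refine forall_congr' fun i => forall_congr' fun hi => ?_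
        have hr : Rec R (GG k E T Wf j i) := by fun_prop
        rw [hH i hi, mem_filter hr]
        exact ⟨fun h => ⟨hz, h⟩, fun h => h.2⟩
      rw [ffun_apply (R := R) (by fun_prop) hz]
      by_cases h : ∀ i < k, GG k E T Wf j i z
      · rw [if_pos (hiff.1 h), ind_true h, one_mul]
      · rw [if_neg (fun h' => h (hiff.2 h')), ind_false h, zero_mul]
  · have hH : ∀ i < k, ffun (rng k) (fun _ : M => Wlt (k + 1) (m + 1)) i =
        Wlt (k + 1) (m + 1) := fun i hi => ffun_apply (R := R) (by fun_prop) (mem_rng.2 hi)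
    refine ⟨ffun (rng k) (fun _ : M => Wlt (k + 1) (m + 1)), ?_, ?_⟩
    · intro i hi x hx y hy hxy hxH
      rw [hH i hi]
      exact hy
    · have h1 : 2 * ga / (k : KK M) ≤ 2 * ga := by
        rw [div_le_iff₀ hkK]
        have : (1 : KK M) ≤ (k : KK M) := by
          rw [← cK_one]
          exact cK_le.2 (by have h0 := succ_le.2 hk; rwa [zero_add] at h0)
        nlinarith
      refine h1.trans (hle.trans (le_of_eq ?_))
      unfold score
      refine hmean.congr _ _ fun z hz => ?_
      rw [ffun_apply (R := R) (by fun_prop) hz, ind_true (fun hD : DD k E T (Wf z) => hTe hD.1),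
        one_mul, if_pos]
      intro i hi
      rw [hH i hi]
      exact hz

end Pool.Agent.OVW
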