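import Pool.Agent.OVW.StmtsB8
import Pool.Agent.OVW.B.Mean

/-!
# OVW, block B, Lemma 8 (one letter)
-/

set_option autoImplicit false
set_option linter.unusedSectionVars false

namespace Pool.Agent.OVW

open Classical

namespace B8

theorem real_bound {K : Type*} [Field K] [LinearOrder K] [IsStrictOrderedRing K] {A g eps : K}
    (he : 0 < eps) (h0 : 0 ≤ g) (h1 : g ≤ 1) :
    A * g ≤ (A * A / eps + eps) / 2 ∧ -((A * A / eps + eps) / 2) ≤ A * g := by
  have e1 : |A| ≤ (A * A / eps + eps) / 2 := by
    have h := sq_nonneg (|A| - eps)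
    have h2 : |A| * |A| = A * A := abs_mul_abs_self A
    have h3 : 2 * (|A| * eps) ≤ A * A + eps * eps := by nlinarith [h, h2]
    have h4 : A * A / eps + eps = (A * A + eps * eps) / eps := by field_simp
    rw [h4, le_div_iff₀ (by norm_num : (0 : K) < 2), le_div_iff₀ he]
    nlinarith [h3]
  have e2 : |A * g| ≤ |A| := by
    rw [abs_mul, abs_of_nonneg h0]
    exact mul_le_of_le_one_right (abs_nonneg _) h1
  have e3 := abs_le.1 (e2.trans e1)
  exact ⟨e3.2, e3.1⟩

end B8

theorem B8_thm (h1 : Stmt_B81) (h2 : Stmt_B82) : Stmt_B8 := by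
  intro M _ _ R _ κ N s P c eps g hκ heps hP hsP hc hg hg01
  have hκK : (0 : KK M) < κ := cK_pos.2 hκ
  have hPK : (0 : KK M) < P := lt_of_lt_of_le (by positivity) hP
  have hP0 : 0 < P := cK_pos.1 hPK
  have hrng : ∃ i : M, i ∈ rng P := ⟨0, mem_rng.2 hP0⟩
  have hW := W_nonempty hκ N
  have e1 : havg (rng P) (fun j => havg (W κ N) (fun y => g (y.set (s + j) c))) - havg (W κ N) g
      = havg (W κ N) (fun y => havg (rng P)
        (fun j => (κ : KK M) * ind M (y.get (s + j) = c) - 1) * g y) := by
    have a1 : havg (rng P) (fun j => havg (W κ N) (fun y => g (y.set (s + j) c)))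
        = havg (rng P) (fun j => havg (W κ N)
          (fun y => (κ : KK M) * ind M (y.get (s + j) = c) * g y)) := by
      apply havg_congr
      intro j hj
      exact h1 M R κ N (s + j) c g hκ
        (lt_of_lt_of_le (add_lt_add_of_le_of_lt le_rfl (mem_rng.1 hj)) hsP) hc hg
    rw [a1, havg_comm (R := R) (by fun_prop), ← havg_sub (R := R) (by fun_prop) (by fun_prop)]
    apply havg_congr
    intro y _
    rw [havg_mul_right (R := R) _ (by fun_prop), havg_sub (R := R) (by fun_prop) (by fun_prop),
      havg_const _ hrng, sub_mul, one_mul]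
  have e2 := h2 M R κ N s P c hκ hP0 hsP hc
  have e3 : ((κ : KK M) - 1) / P ≤ eps * eps := by
    rw [div_le_iff₀ hPK]
    have : (κ : KK M) ≤ P * (eps * eps) := (div_le_iff₀ (by positivity)).1 hP
    linarith
  have e4 : havg (W κ N) (fun y => (havg (rng P)
      (fun j => (κ : KK M) * ind M (y.get (s + j) = c) - 1) *
      havg (rng P) (fun j => (κ : KK M) * ind M (y.get (s + j) = c) - 1) / eps + eps) / 2)
      ≤ eps := by
    have : havg (W κ N) (fun y => (havg (rng P)
        (fun j => (κ : KK M) * ind M (y.get (s + j) = c) - 1) *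
        havg (rng P) (fun j => (κ : KK M) * ind M (y.get (s + j) = c) - 1) / eps + eps) / 2)
        = ((((κ : KK M) - 1) / P) / eps + eps) / 2 := by
      simp only [div_eq_mul_inv _ (2 : KK M), div_eq_mul_inv _ eps]
      rw [havg_mul_right (R := R) _ (by fun_prop), havg_add (R := R) (by fun_prop) (by fun_prop),
        havg_mul_right (R := R) _ (by fun_prop), havg_const _ hW, e2]
    rw [this, div_le_iff₀ (by norm_num : (0 : KK M) < 2)]
    have : ((κ : KK M) - 1) / P / eps ≤ eps := by
      rw [div_le_iff₀ heps]; exact e3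
    linarith
  rw [e1, abs_le]
  constructor
  · have : -havg (W κ N) (fun y => (havg (rng P)
      (fun j => (κ : KK M) * ind M (y.get (s + j) = c) - 1) *
      havg (rng P) (fun j => (κ : KK M) * ind M (y.get (s + j) = c) - 1) / eps + eps) / 2)
      ≤ havg (W κ N) (fun y => havg (rng P)
        (fun j => (κ : KK M) * ind M (y.get (s + j) = c) - 1) * g y) := by
      rw [neg_le_iff_add_nonneg, ← havg_add (R := R) (by fun_prop) (by fun_prop)]
      apply havg_nonneg (R := R) (by fun_prop)
      intro y hy
      have := (B8.real_bound (A := havg (rng P)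
        (fun j => (κ : KK M) * ind M (y.get (s + j) = c) - 1)) heps (hg01 y hy).1 (hg01 y hy).2).2
      linarith
    linarith
  · refine le_trans ?_ e4
    apply havg_le_havg (R := R) (by fun_prop) (by fun_prop)
    intro y hy
    exact (B8.real_bound heps (hg01 y hy).1 (hg01 y hy).2).1

end Pool.Agent.OVW
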