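import Pool.Agent.OVW.StmtsB8
import Pool.Agent.OVW.B.Mean

/-! # B81: change of measure -/

set_option autoImplicit false

namespace Pool.Agent.OVW

open Classical

set_option linter.unusedSectionVars false

theorem B81_thm : Stmt_B81 := by
  intro M _ _ R _ κ N p c g hκ hp hc hg
  rw [← havg_W_set (R := R) hκ hp (f := fun y => (κ : KK M) * ind M (y.get p = c) * g y)
    (by fun_prop)]
  refine havg_congr fun y hy => ?_
  have hlen : p < y.len := by
    rw [(mem_W.1 hy).1]
    exact hp
  have h2 : hsum (rng κ) (fun d => (κ : KK M) * ind M ((y.set p d).get p = c) * g (y.set p d)) =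
      (κ : KK M) * g (y.set p c) := by
    refine Eq.trans ?_ (hsum_ite_eq (S := rng κ) (mem_rng.2 hc) ((κ : KK M) * g (y.set p c)))
    refine hsum_congr fun d _ => ?_
    rw [get_set hlen, if_pos rfl]
    by_cases hd : d = c
    · rw [if_pos hd, ind_true hd, hd, mul_one]
    · rw [if_neg hd, ind_false hd, mul_zero, zero_mul]
  have h0 : (κ : KK M) ≠ 0 := (cK_pos.2 hκ).ne'
  unfold havg
  rw [h2, card_rng]
  field_simp

end Pool.Agent.OVW
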