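import Pool.Agent.OVW.StmtsB8
import Pool.Agent.OVW.B.Mean

set_option autoImplicit false

/-! # B82: the second moment -/

namespace Pool.Agent.OVW

open Classical

set_option linter.unusedSectionVars false

variable {M : Type} [Arith M] [HasWorld M] {R : Set (M → M)} [IsWorld R]

namespace B82

/-- the centred indicator -/
noncomputable def XX (κ c p : M) (y : Wd M) : KK M := (κ : KK M) * ind M (y.get p = c) - 1

@[fun_prop] theorem Rec.XX {γ : Type} [Cod M γ] {κ c p : γ → M} {y : γ → Wd M} (h1 : Rec R κ)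
    (h2 : Rec R c) (h3 : Rec R p) (h4 : Rec R y) :
    Rec R (fun x => B82.XX (κ x) (c x) (p x) (y x)) := by
  unfold B82.XX; fun_prop

theorem cast_pos' {κ : M} (hκ : 0 < κ) : (0 : KK M) < (κ : KK M) := by
  rw [← cK_zero, cK_lt]; exact hκ

theorem av_ind (R : Set (M → M)) [IsWorld R] {κ c : M} (hc : c < κ) :
    havg (rng κ) (fun d => ind M (d = c)) = 1 / (κ : KK M) := by
  unfold havg
  have h : hsum (rng κ) (fun d => ind M (d = c)) = 1 := by
    have := hsum_ite_eq (S := rng κ) (c := c) (mem_rng.2 hc) (1 : KK M)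
    exact this
  rw [h, card_rng]

theorem ne (R : Set (M → M)) [IsWorld R] {κ N p q c : M} (hκ : 0 < κ) (hp : p < N) (hc : c < κ)
    (hpq : q ≠ p) : havg (W κ N) (fun y => XX κ c p y * XX κ c q y) = 0 := by
  rw [← havg_W_set (R := R) hκ hp (f := fun y => XX κ c p y * XX κ c q y) (by fun_prop)]
  rw [← (mean_W R hκ N).const 0]
  refine havg_congr fun y hy => ?_
  have hl : p < y.len := by rw [(mem_W.1 hy).1]; exact hp
  have h1 : ∀ d, XX κ c p (y.set p d) * XX κ c q (y.set p d) =
      ((κ : KK M) * ind M (d = c) - 1) * XX κ c q y := by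
    intro d
    unfold XX
    rw [get_set hl, get_set hl, if_pos rfl, if_neg hpq]
  simp only [h1]
  have hκ' := (cast_pos' hκ).ne'
  rw [(mean_rng R hκ).mul_const (by fun_prop), (mean_rng R hκ).sub_const (by fun_prop),
    (mean_rng R hκ).smul _ _ (by fun_prop), av_ind R hc]
  field_simp
  ring

theorem sq (R : Set (M → M)) [IsWorld R] {κ N p c : M} (hκ : 0 < κ) (hp : p < N) (hc : c < κ) :
    havg (W κ N) (fun y => XX κ c p y * XX κ c p y) = (κ : KK M) - 1 := by
  rw [← havg_W_set (R := R) hκ hp (f := fun y => XX κ c p y * XX κ c p y) (by fun_prop)]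
  rw [← (mean_W R hκ N).const ((κ : KK M) - 1)]
  refine havg_congr fun y hy => ?_
  have hl : p < y.len := by rw [(mem_W.1 hy).1]; exact hp
  have h1 : ∀ d, XX κ c p (y.set p d) * XX κ c p (y.set p d) =
      ind M (d = c) * ((κ : KK M) * κ - 2 * κ) + 1 := by
    intro d
    unfold XX
    rw [get_set hl, if_pos rfl]
    by_cases h : d = c
    · rw [ind_true h]; ring
    · rw [ind_false h]; ring
  simp only [h1]
  have hκ' := (cast_pos' hκ).ne'
  rw [(mean_rng R hκ).add_const (by fun_prop), (mean_rng R hκ).mul_const (by fun_prop), av_ind R hc]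
  field_simp
  ring

end B82

open B82 in
theorem B82_thm : Stmt_B82 := by
  intro M _ _ R _ κ N s P c hκ hP hs hc
  have hA : ∀ y : Wd M, havg (rng P) (fun j => (κ : KK M) * ind M (y.get (s + j) = c) - 1) =
      havg (rng P) (fun j => XX κ c (s + j) y) := fun y => rfl
  simp only [hA]
  have h1 : ∀ y : Wd M, havg (rng P) (fun j => XX κ c (s + j) y) *
      havg (rng P) (fun j => XX κ c (s + j) y) =
      havg (rng P) (fun i => XX κ c (s + i) y * havg (rng P) (fun j => XX κ c (s + j) y)) := by
    intro y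
    rw [havg_mul_right (R := R) _ (by fun_prop)]
  simp only [h1]
  rw [havg_comm (R := R) (S := W κ N) (T := rng P)
    (f := fun y i => XX κ c (s + i) y * havg (rng P) (fun j => XX κ c (s + j) y)) (by fun_prop)]
  rw [← (mean_rng R hP).const (((κ : KK M) - 1) / P)]
  refine havg_congr fun i hi => ?_
  have hi := mem_rng.1 hi
  have h2 : ∀ y : Wd M, XX κ c (s + i) y * havg (rng P) (fun j => XX κ c (s + j) y) =
      havg (rng P) (fun j => XX κ c (s + i) y * XX κ c (s + j) y) := by
    intro y
    rw [havg_mul_left (R := R) _ (by fun_prop)]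
  simp only [h2]
  rw [havg_comm (R := R) (S := W κ N) (T := rng P)
    (f := fun y j => XX κ c (s + i) y * XX κ c (s + j) y) (by fun_prop)]
  have hlt : s + i < N := lt_of_lt_of_le (add_lt_add_right hi s) hs
  have h3 : ∀ j ∈ rng P, havg (W κ N) (fun y => XX κ c (s + i) y * XX κ c (s + j) y) =
      if j = i then (κ : KK M) - 1 else 0 := by
    intro j _
    by_cases hj : j = i
    · rw [if_pos hj, hj]
      exact sq R hκ hlt hc
    · rw [if_neg hj]
      exact ne R hκ hlt hc (fun h => hj (add_left_cancel h))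
  rw [havg_congr h3]
  unfold havg
  rw [card_rng]
  congr 1
  convert hsum_ite_eq (S := rng P) (c := i) (mem_rng.2 hi) ((κ : KK M) - 1)

end Pool.Agent.OVW
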