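import Pool.Agent.OVW.StmtsB8
import Pool.Agent.OVW.B.Mean

/-!
# Block B, Lemma 9: the random embedding

The parameters of the random embedding are chosen, and the parts B91, B94, B95 are put together.
-/

set_option autoImplicit false

namespace Pool.Agent.OVW

open Classical

set_option linter.unusedSectionVars false

namespace B9

variable {M : Type} [Arith M] [HasWorld M]

/-- Every element of the field is below a positive element of the model. -/
theorem exists_ge (x : KK M) : ∃ S : M, x ≤ S ∧ 0 < S := by
  refine ⟨kceil x + 1, (le_kceil x).trans ?_, ?_⟩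
  · push_cast
    linarith
  · exact lt_succ.2 zero_le

end B9

/-- **Lemma 9**: existence of the random embedding. -/
theorem B9_thm (h91 : Stmt_B91) (h94 : Stmt_B94) (h95 : Stmt_B95) : Stmt_B9 := by
  intro M _ _ R _ k n eps hn heps
  obtain ⟨S, hS, hS0⟩ := B9.exists_ge (4 * (n : KK M) / eps)
  obtain ⟨P, hP, hP0⟩ := B9.exists_ge (((k + 1 : M) : KK M) /
    (eps / (4 * (n : KK M)) * (eps / (4 * (n : KK M)))))
  have hN0 : 0 < (S + n) * P := mul_pos (add_pos hS0 hn) hP0
  obtain ⟨hne, -, -, -, htree⟩ := h91 M R k S P ((S + n) * P) n hS0 hP0 hn rfl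
  refine ⟨S, P, (S + n) * P, hN0, ⟨hne, by fun_prop, htree, ?_, ?_⟩⟩
  · intro E hE z hz
    obtain ⟨h1, h2⟩ := h95 M R k S P ((S + n) * P) n eps E hn heps hS hP0 rfl hE
    have hzlen : z.len < n := (mem_Wlt.1 hz).1
    have h3 := h94 M R k S P ((S + n) * P) n eps E z {wnil} hn heps hS hP rfl hE hz (by
      intro u hu
      rw [mem_singleton.1 hu, len_wnil, add_zero]
      exact hzlen)
    have e1 : (fun ω : M × Wd M × Wd M => ∀ u ∈ ({wnil} : FSet M (Wd M)), E (TE P ω (z ++ u))) =
        fun ω => E (TE P ω z) := by
      funext ω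
      apply propext
      constructor
      · intro h
        have := h wnil (mem_singleton.2 rfl)
        rwa [append_nil] at this
      · intro h u hu
        rw [mem_singleton.1 hu, append_nil]
        exact h
    have e2 : (fun ω : M × Wd M × Wd M => ∀ u ∈ ({wnil} : FSet M (Wd M)), E (TE P ω u)) =
        fun ω => E (TE P ω wnil) := by
      funext ω
      apply propext
      constructor
      · intro h
        exact h wnil (mem_singleton.2 rfl)
      · intro h u hu
        rw [mem_singleton.1 hu]
        exact h
    rw [e1, e2] at h3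
    have h4 := (abs_le.1 h3).1
    rw [h1] at h4
    linarith
  · intro E hE x hx U hU
    have h3 := h94 M R k S P ((S + n) * P) n eps E x U hn heps hS hP rfl hE hx hU
    have h4 := (abs_le.1 h3).2
    linarith

end Pool.Agent.OVW
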