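import Pool.Agent.OVW.StmtsB8

/-!
# Block B, Lemma 9: averages over the random embeddings, the levels, trees
-/

set_option autoImplicit false

open Classical

namespace Pool.Agent.OVW

set_option linter.unusedSectionVars false

namespace B91

variable {M : Type} [Arith M] [HasWorld M] {R : Set (M → M)} [IsWorld R]

theorem get_lt {P n : M} (hP : 0 < P) {i : Wd M} (hi : i ∈ W P n) (j : M) : i.get j < P := by
  obtain ⟨h1, h2⟩ := mem_W.1 hi
  rcases lt_or_ge j n with h | h
  · exact h2 j h
  · rw [i.out j (by rw [h1]; exact h)]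
    exact hP

theorem lamE_lt {P n : M} (hP : 0 < P) (sig : M) {i : Wd M} (hi : i ∈ W P n) (a : M) :
    lamE P sig i a < (sig + a + 1) * P := by
  unfold lamE
  rw [add_mul (sig + a) 1 P, one_mul]
  exact add_lt_add_right (get_lt hP hi a) _

theorem lamE_strict {P n : M} (hP : 0 < P) (sig : M) {i : Wd M} (hi : i ∈ W P n) {a b : M}
    (h : a < b) : lamE P sig i a < lamE P sig i b := by
  refine (lamE_lt hP sig hi a).trans_le ?_
  unfold lamE
  refine le_trans ?_ le_self_add
  have h1 : sig + a + 1 ≤ sig + b := by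
    rw [add_assoc]
    exact add_le_add_right (succ_le.2 h) sig
  gcongr

theorem lamE_bound {P n S : M} (hP : 0 < P) {sig : M} (hs : sig < S) {i : Wd M}
    (hi : i ∈ W P n) {a : M} (h : a < n) : lamE P sig i a < (S + n) * P := by
  refine (lamE_lt hP sig hi a).trans_le ?_
  have h1 : sig + a + 1 ≤ S + n := by
    rw [add_assoc]
    exact add_le_add hs.le (succ_le.2 h)
  gcongr

end B91

/-- B91. -/
theorem B91_thm (h : Stmt_B_PHT) : Stmt_B91 := by
  intro M _ _ R _ k S P N n hS hP hn hN
  have hk : (0 : M) < k + 1 := lt_of_lt_of_le one_pos le_add_self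
  refine ⟨?_, ?_, ?_, ?_, ?_⟩
  · obtain ⟨i, hi⟩ := W_nonempty hP n
    obtain ⟨y, hy⟩ := W_nonempty hk N
    refine ⟨(0, i, y), ?_⟩
    unfold Om
    exact mem_prod.2 ⟨mem_rng.2 hS, mem_prod.2 ⟨hi, hy⟩⟩
  · intro F hF
    unfold Om
    rw [havg_prod hF]
    apply havg_congr
    intro sig _
    rw [havg_prod (R := R) (f := fun p : Wd M × Wd M => F (sig, p)) (by fun_prop)]
  · intro sig i hi a b hab
    exact B91.lamE_strict hP sig hi hab
  · intro sig hs i hi a ha
    rw [hN]
    exact B91.lamE_bound hP hs hi ha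
  · rintro ⟨sig, i, y⟩ hω
    unfold Om at hω
    obtain ⟨h1, h2⟩ := mem_prod.1 hω
    obtain ⟨h3, h4⟩ := mem_prod.1 h2
    have h1' : sig < S := mem_rng.1 h1
    have h3' : i ∈ W P n := h3
    have h4' : y ∈ W (k + 1) N := h4
    obtain rfl | ⟨m, rfl⟩ := cases_succ n
    · exact absurd hn (lt_irrefl _)
    have hlt : lamE P sig i m < N := by
      rw [hN]
      exact B91.lamE_bound hP h1' h3' (lt_succ.2 le_rfl)
    exact h M R (lamE P sig i) k m N N y (by fun_prop) h4' hlt le_self_add
      (fun j _ i' hi' => B91.lamE_strict hP sig h3' hi')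

end Pool.Agent.OVW
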