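import Pool.Agent.OVW.StmtsB8
import Pool.Agent.OVW.B.Mean

/-!
# Module OVW8_B92: the letters number `lam 0, .., lam (s - 1)` replaced by the letters of `x`
-/

set_option autoImplicit false

namespace Pool.Agent.OVW

open Classical

set_option linter.unusedSectionVars false

namespace B92

variable {M : Type} [Arith M] [HasWorld M] {R : Set (M → M)} [IsWorld R]

theorem len_ins (lam : M → M) (y z : Wd M) : (ins lam y z).len = y.len := len_wd _ _

theorem get_ins {lam : M → M} (hl : Rec R lam) {y z : Wd M} {i : M} (hi : i < y.len) :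
    (ins lam y z).get i = if ∃ j < z.len, lam j = i then
      z.get (hchoose (rng z.len) (fun j => lam j = i)) else y.get i := by
  unfold ins
  exact get_wd (R := R) (by fun_prop) hi

theorem get_ins_of {lam : M → M} (hl : Rec R lam) {y z : Wd M}
    (hinj : ∀ a < z.len, ∀ b < z.len, lam a = lam b → a = b) {j : M} (hj : j < z.len)
    (hi : lam j < y.len) : (ins lam y z).get (lam j) = z.get j := by
  rw [get_ins hl hi, if_pos ⟨j, hj, rfl⟩]
  have h := hchoose_mem (R := R) (S := rng z.len) (p := fun a => lam a = lam j) (by fun_prop)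
    ⟨j, mem_rng.2 hj, rfl⟩
  rw [hinj _ (mem_rng.1 h.1) _ hj h.2]

theorem get_ins_ne {lam : M → M} (hl : Rec R lam) {y z : Wd M} {i : M} (hi : i < y.len)
    (h : ∀ j < z.len, lam j ≠ i) : (ins lam y z).get i = y.get i := by
  rw [get_ins hl hi, if_neg]
  rintro ⟨j, hj, h1⟩
  exact h j hj h1

theorem ins_mem {lam : M → M} (hl : Rec R lam) {κ N : M} {y z : Wd M} (hy : y ∈ W κ N)
    (hz : ∀ i < z.len, z.get i < κ) : ins lam y z ∈ W κ N := by
  rw [mem_W] at hy ⊢
  refine ⟨by rw [len_ins, hy.1], fun i hi => ?_⟩
  rw [get_ins hl (by rw [hy.1]; exact hi)]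
  by_cases h : ∃ j < z.len, lam j = i
  · rw [if_pos h]
    obtain ⟨j, hj, h1⟩ := h
    have h2 := hchoose_mem (R := R) (S := rng z.len) (p := fun a => lam a = i) (by fun_prop)
      ⟨j, mem_rng.2 hj, h1⟩
    exact hz _ (mem_rng.1 h2.1)
  · rw [if_neg h]
    exact hy.2 i hi

theorem ins_wnil {lam : M → M} (hl : Rec R lam) (y : Wd M) : ins lam y wnil = y := by
  refine Wd.ext' (len_ins _ _ _) fun i hi => ?_
  rw [len_ins] at hi
  refine get_ins_ne hl hi fun j hj => ?_
  rw [len_wnil] at hj
  exact absurd hj (not_lt.2 (zero_le' j))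

theorem ins_take_succ {lam lam' : M → M} (hl : Rec R lam) (hl' : Rec R lam') {x y : Wd M} {j : M}
    (hj : j < x.len) (hinj : ∀ a ≤ j, ∀ b ≤ j, lam a = lam b → a = b) (hy : lam j < y.len)
    (he : ∀ a < j, lam' a = lam a) :
    ins lam y (x.take (j + 1)) = ins lam' (y.set (lam j) (x.get j)) (x.take j) := by
  have h1 : (x.take (j + 1)).len = j + 1 := by rw [len_take, min_eq_left (succ_le.2 hj)]
  have h2 : (x.take j).len = j := by rw [len_take, min_eq_left hj.le]
  refine Wd.ext' (by rw [len_ins, len_ins, len_set]) fun i hi => ?_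
  rw [len_ins] at hi
  have hi' : i < (y.set (lam j) (x.get j)).len := by rw [len_set]; exact hi
  by_cases hc : ∃ a < j + 1, lam a = i
  · obtain ⟨a, ha, rfl⟩ := hc
    have ha' : a ≤ j := lt_succ.1 ha
    rw [get_ins_of hl (fun a ha b hb h => hinj a (lt_succ.1 (by rw [h1] at ha; exact ha)) b
      (lt_succ.1 (by rw [h1] at hb; exact hb)) h) (by rw [h1]; exact ha) hi, get_take ha]
    rcases lt_or_eq_of_le ha' with h3 | rfl
    · rw [← he a h3] at hi' ⊢
      rw [get_ins_of hl' (fun a ha b hb h => hinj a (by rw [h2] at ha; exact ha.le) b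
        (by rw [h2] at hb; exact hb.le) (by
          rw [h2] at ha hb
          rw [← he a ha, ← he b hb]; exact h)) (by rw [h2]; exact h3) hi', get_take h3]
    · rw [get_ins_ne hl' hi' (fun b hb h => by
        rw [h2] at hb
        rw [he b hb] at h
        exact hb.ne (hinj b hb.le _ le_rfl h)), get_set hy, if_pos rfl]
  · rw [get_ins_ne hl hi (fun b hb h => hc ⟨b, by rw [h1] at hb; exact hb, h⟩),
      get_ins_ne hl' hi' (fun b hb h => by
        rw [h2] at hb
        rw [he b hb] at h
        exact hc ⟨b, lt_succ.2 hb.le, h⟩), get_set hy, if_neg]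
    exact fun h => hc ⟨j, lt_succ.2 le_rfl, h.symm⟩

theorem block_le {P sig a b N : M} (hab : a < b) (hN : (sig + b) * P ≤ N) :
    (sig + a) * P + P ≤ N := by
  have h1 : sig + a + 1 ≤ sig + b := by
    rw [add_assoc]
    exact (add_le_add_iff_left sig).2 (succ_le.2 hab)
  calc (sig + a) * P + P = (sig + a + 1) * P := by ring
    _ ≤ (sig + b) * P := by gcongr
    _ ≤ N := hN

theorem lamE_lt {P sig : M} {i : Wd M} {a b : M} (h : i.get a < P) (hab : a < b) :
    lamE P sig i a < lamE P sig i b := by
  unfold lamE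
  calc (sig + a) * P + i.get a < (sig + a) * P + P := (add_lt_add_iff_left _).2 h
    _ ≤ (sig + b) * P := block_le hab le_rfl
    _ ≤ (sig + b) * P + i.get b := le_self_add

theorem lamE_inj {P sig : M} {i : Wd M} {n : M} (h : ∀ a < n, i.get a < P) :
    ∀ a < n, ∀ b < n, lamE P sig i a = lamE P sig i b → a = b := by
  intro a ha b hb hab
  rcases lt_trichotomy a b with h1 | h1 | h1
  · exact absurd hab (lamE_lt (h a ha) h1).ne
  · exact h1
  · exact absurd hab (lamE_lt (h b hb) h1).ne'

theorem abs_havg_sub_le {α : Type} [Cod M α] {S : FSet M α} (hS : ∃ a, a ∈ S) {f f' : α → KK M}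
    (hf : Rec R f) (hf' : Rec R f') {e : KK M} (h : ∀ a ∈ S, |f a - f' a| ≤ e) :
    |havg S f - havg S f'| ≤ e := by
  rw [← havg_sub hf hf', abs_le]
  exact ⟨le_havg (R := R) (by fun_prop) hS fun a ha => (abs_le.1 (h a ha)).1,
    havg_le (R := R) (by fun_prop) hS fun a ha => (abs_le.1 (h a ha)).2⟩

end B92

open B92 in
theorem B92_thm (h8 : Stmt_B8) : Stmt_B92 := by
  intro M _ _ R _ κ N P sig x i2 eps g hκ heps hP hN hx hg hg01
  have hκ' : (0 : KK M) < κ := cK_pos.2 hκ
  have hP0 : 0 < P := cK_pos.1 (lt_of_lt_of_le (div_pos hκ' (mul_pos heps heps)) hP)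
  have hxk : ∀ i < x.len, x.get i < κ := (mem_W.1 hx).2
  have key : ∀ j ≤ x.len, |havg (W P x.len) (fun i1 => havg (W κ N)
      (fun y => g (ins (lamE P sig (i1 ++ i2)) y (x.take j)))) - havg (W κ N) g| ≤ j * eps := by
    refine ind_rec_lt (R := R) (by fun_prop) x.len ?_ ?_
    · have h1 : ∀ i1 ∈ W P x.len, havg (W κ N)
          (fun y => g (ins (lamE P sig (i1 ++ i2)) y (x.take 0))) = havg (W κ N) g := by
        intro i1 _
        refine havg_congr fun y _ => ?_
        rw [take_zero, ins_wnil (R := R) (by fun_prop)]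
      rw [havg_congr h1, havg_const _ (W_nonempty hP0 _), sub_self, abs_zero, cK_zero, zero_mul]
    · intro j hj ih
      have hstep : |havg (W P x.len) (fun i1 => havg (W κ N)
          (fun y => g (ins (lamE P sig (i1 ++ i2)) y (x.take (j + 1))))) -
          havg (W P x.len) (fun i1 => havg (W κ N)
          (fun y => g (ins (lamE P sig (i1 ++ i2)) y (x.take j))))| ≤ eps := by
        rw [← havg_W_set (R := R) hP0 hj (f := fun i1 => havg (W κ N)
          (fun y => g (ins (lamE P sig (i1 ++ i2)) y (x.take (j + 1))))) (by fun_prop)]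
        refine abs_havg_sub_le (R := R) (W_nonempty hP0 _) (by fun_prop) (by fun_prop) ?_
        intro u hu
        have hu' := mem_W.1 hu
        have h3 := h8 M R κ N ((sig + j) * P) P (x.get j) eps
          (fun y => g (ins (lamE P sig (u ++ i2)) y (x.take j))) hκ heps hP
          (block_le hj hN) (hxk j hj) (by fun_prop) (fun y hy => hg01 _ (ins_mem (R := R)
            (by fun_prop) hy fun i hi => by
              rw [len_take, lt_min_iff] at hi
              rw [get_take hi.1]
              exact hxk i hi.2))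
        refine le_of_eq_of_le ?_ h3
        congr 2
        refine havg_congr fun c hc => havg_congr fun y hy => ?_
        rw [mem_rng] at hc
        have hyl : y.len = N := (mem_W.1 hy).1
        have hjl : j < (u.set j c).len := by rw [len_set, hu'.1]; exact hj
        have hset : ∀ a < x.len, (u.set j c ++ i2).get a = if a = j then c else u.get a := by
          intro a ha
          rw [get_append_left (by rw [len_set, hu'.1]; exact ha), get_set (by rw [hu'.1]; exact hj)]
        have hlj : lamE P sig (u.set j c ++ i2) j = (sig + j) * P + c := by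
          unfold lamE
          rw [hset j hj, if_pos rfl]
        have hlt : ∀ a < x.len, (u.set j c ++ i2).get a < P := by
          intro a ha
          rw [hset a ha]
          split_ifs
          · exact hc
          · exact hu'.2 a ha
        rw [← hlj]
        refine congrArg g (ins_take_succ (R := R) (by fun_prop) (by fun_prop) hj ?_ ?_ ?_)
        · intro a ha b hb
          exact lamE_inj hlt a (lt_of_le_of_lt ha hj) b (lt_of_le_of_lt hb hj)
        · rw [hlj, hyl]
          exact lt_of_lt_of_le ((add_lt_add_iff_left _).2 hc) (block_le hj hN)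
        · intro a ha
          unfold lamE
          rw [hset a (ha.trans hj), if_neg ha.ne, get_append_left (by rw [hu'.1]; exact ha.trans hj)]
      calc _ ≤ _ := abs_sub_le _ (havg (W P x.len) (fun i1 => havg (W κ N)
            (fun y => g (ins (lamE P sig (i1 ++ i2)) y (x.take j))))) _
        _ ≤ eps + j * eps := add_le_add hstep ih
        _ = ((j + 1 : M) : KK M) * eps := by rw [cK_add, cK_one]; ring
  have h := key x.len le_rfl
  rw [take_of_len_le le_rfl] at h
  exact h

end Pool.Agent.OVW
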