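import Pool.Agent.OVW.StmtsB8
import Pool.Agent.OVW.B.Mean

/-! # Block B, section 9: B93, shift of an average -/

set_option autoImplicit false

namespace Pool.Agent.OVW

open Classical

theorem B93_thm : Stmt_B93 := by
  intro M _ _ R _ S s H hS hH h01
  have hS' : (0 : KK M) < (S : KK M) := by
    rw [← cK_zero, cK_lt]
    exact hS
  have hH' : Rec R (fun j => H (j + s)) := by fun_prop
  have hH'' : Rec R (fun i => H (S + i)) := by fun_prop
  have e1 := hsum_rng_add hH S s
  have e2 := hsum_rng_add hH s S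
  have e3 : (fun i => H (s + i)) = (fun j => H (j + s)) := by
    funext i
    rw [add_comm]
  rw [e3] at e2
  have e4 : hsum (rng (s + S)) H = hsum (rng (S + s)) H := by rw [add_comm]
  have c1 : ∀ f : M → KK M, Rec R f → (∀ j, 0 ≤ f j ∧ f j ≤ 1) →
      0 ≤ hsum (rng s) f ∧ hsum (rng s) f ≤ (s : KK M) := by
    intro f hf hb
    refine ⟨hsum_nonneg hf fun a _ => (hb a).1, ?_⟩
    have h1 := hsum_le_hsum (S := rng s) hf (g := fun _ => (1 : KK M)) (by fun_prop)
      (fun a _ => (hb a).2)
    rw [hsum_const, card_rng, mul_one] at h1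
    exact h1
  obtain ⟨a1, a2⟩ := c1 H hH h01
  obtain ⟨b1, b2⟩ := c1 (fun i => H (S + i)) hH'' (fun j => h01 _)
  have e5 : hsum (rng S) (fun j => H (j + s)) - hsum (rng S) H =
      hsum (rng s) (fun i => H (S + i)) - hsum (rng s) H := by
    rw [e4, e1] at e2
    linear_combination -e2
  unfold havg
  rw [card_rng, ← sub_div, e5, abs_div, abs_of_pos hS']
  refine div_le_div_of_nonneg_right ?_ hS'.le
  rw [abs_le]
  constructor <;> linarith

end Pool.Agent.OVW
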