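import Pool.Agent.OVW.StmtsB8
import Pool.Agent.OVW.B.Mean

/-!
# Block B, Lemma 9 (ii): module B94

The law of the random embedding shifted by a word `x` is near to the law of the random embedding.
-/

namespace Pool.Agent.OVW

open Classical

set_option linter.unusedSectionVars false

namespace B94

variable {M : Type} [Arith M] [HasWorld M] {R : Set (M → M)} [IsWorld R]

theorem ins_congr {lam lam' : M → M} {y z : Wd M} (h : ∀ j < z.len, lam j = lam' j) :
    ins lam y z = ins lam' y z := by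
  unfold ins
  refine wd_congr fun i _ => ?_
  have h1 : (∃ j < z.len, lam j = i) ↔ ∃ j < z.len, lam' j = i := by
    constructor
    · rintro ⟨j, hj, hji⟩
      exact ⟨j, hj, by rw [← h j hj]; exact hji⟩
    · rintro ⟨j, hj, hji⟩
      exact ⟨j, hj, by rw [h j hj]; exact hji⟩
  have h2 : hchoose (rng z.len) (fun j => lam j = i) = hchoose (rng z.len) (fun j => lam' j = i) :=
    hchoose_congr fun j hj => by rw [h j (mem_rng.1 hj)]
  rw [h2]
  simp only [h1]

theorem Phi_congr {lam lam' : M → M} {y z : Wd M} (h : ∀ j ≤ z.len, lam j = lam' j) :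
    Phi lam y z = Phi lam' y z := by
  unfold Phi
  rw [ins_congr (fun j hj => h j hj.le), h z.len le_rfl]

/-- the levels after the first `s` ones -/
theorem lamE_append (P sig : M) (i1 i2 : Wd M) (j : M) :
    lamE P sig (i1 ++ i2) (i1.len + j) = lamE P (sig + i1.len) i2 j := by
  unfold lamE
  rw [get_append_right, add_assoc]

/-- the probability that the random embedding with the parameters `sig`, `i`, `y` maps `U` into
`E` -/
noncomputable def GE (P : M) (E : Wd M → Prop) (U : FSet M (Wd M)) (sig : M) (i y : Wd M) : KK M :=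
  ind M (∀ u ∈ U, E (Phi (lamE P sig i) y u))

theorem Rec_GE {γ : Type} [Cod M γ] {P : M} {E : Wd M → Prop} (hE : Rec R E) (U : FSet M (Wd M))
    {sig : γ → M} {i y : γ → Wd M} (h1 : Rec R sig) (h2 : Rec R i) (h3 : Rec R y) :
    Rec R (fun x => GE P E U (sig x) (i x) (y x)) := by
  unfold GE
  fun_prop

theorem GE_nonneg (P : M) (E : Wd M → Prop) (U : FSet M (Wd M)) (sig : M) (i y : Wd M) :
    0 ≤ GE P E U sig i y := ind_nonneg _

theorem GE_le_one (P : M) (E : Wd M → Prop) (U : FSet M (Wd M)) (sig : M) (i y : Wd M) :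
    GE P E U sig i y ≤ 1 := ind_le_one _

/-- `GE` depends only on the first letters of `i` -/
theorem GE_take {P : M} {E : Wd M → Prop} {U : FSet M (Wd M)} {sig m : M} (hU : ∀ u ∈ U, u.len < m)
    (i y : Wd M) : GE P E U sig i y = GE P E U sig (i.take m) y := by
  unfold GE
  refine ind_congr (forall₂_congr fun u hu => ?_)
  rw [Phi_congr (lam := lamE P sig i) (lam' := lamE P sig (i.take m)) fun j hj => ?_]
  unfold lamE
  rw [get_take (hj.trans_lt (hU u hu))]

/-- the average over the levels and the words -/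
noncomputable def HE (κ P N m : M) (E : Wd M → Prop) (U : FSet M (Wd M)) (sig : M) : KK M :=
  havg (W P m) (fun i => havg (W κ N) (fun y => GE P E U sig i y))

theorem Rec_HE (κ P N m : M) {E : Wd M → Prop} (hE : Rec R E) (U : FSet M (Wd M)) :
    Rec R (fun sig => HE κ P N m E U sig) := by
  have h1 : Rec R (fun p : (M × Wd M) × Wd M => GE P E U p.1.1 p.1.2 p.2) :=
    Rec_GE hE U (by fun_prop) (by fun_prop) (by fun_prop)
  unfold HE
  fun_prop

theorem HE_mem (R : Set (M → M)) [IsWorld R] {κ P : M} (hκ : 0 < κ) (hP : 0 < P) (N m : M)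
    {E : Wd M → Prop} (hE : Rec R E) (U : FSet M (Wd M)) (sig : M) :
    0 ≤ HE κ P N m E U sig ∧ HE κ P N m E U sig ≤ 1 := by
  have h1 : Rec R (fun p : Wd M × Wd M => GE P E U sig p.1 p.2) :=
    Rec_GE hE U (by fun_prop) (by fun_prop) (by fun_prop)
  unfold HE
  constructor
  · refine havg_nonneg (R := R) (by fun_prop) fun i _ => ?_
    exact havg_nonneg (R := R) (by fun_prop) fun y _ => GE_nonneg _ _ _ _ _ _
  · refine havg_le (R := R) (by fun_prop) (W_nonempty hP m) fun i _ => ?_
    exact havg_le (R := R) (by fun_prop) (W_nonempty hκ N) fun y _ => GE_le_one _ _ _ _ _ _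

theorem abs_havg_sub_le {α : Type} [Cod M α] {S : FSet M α} {f g : α → KK M} {c : KK M}
    (hS : ∃ a, a ∈ S) (hf : Rec R f) (hg : Rec R g) (h : ∀ a ∈ S, |f a - g a| ≤ c) :
    |havg S f - havg S g| ≤ c := by
  rw [← havg_sub hf hg, abs_le]
  exact ⟨le_havg (R := R) (by fun_prop) hS fun a ha => (abs_le.1 (h a ha)).1,
    havg_le (R := R) (by fun_prop) hS fun a ha => (abs_le.1 (h a ha)).2⟩

/-- the second probability -/
theorem second (h91 : Stmt_B91) (R : Set (M → M)) [IsWorld R] {k S P N n s : M}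
    {E : Wd M → Prop} {U : FSet M (Wd M)} (hS : 0 < S) (hP : 0 < P) (hn : 0 < n)
    (hN : N = (S + n) * P) (hE : Rec R E) (hU : ∀ u ∈ U, s + u.len < n) :
    hpr (Om (k + 1) S P N n) (fun ω => ∀ u ∈ U, E (TE P ω u)) =
      havg (rng S) (fun sig => HE (k + 1) P N (n - s) E U sig) := by
  have h1 := (h91 M R k S P N n hS hP hn hN).2.1
    (fun ω => ind M (∀ u ∈ U, E (TE P ω u))) (by fun_prop)
  rw [hpr_eq_havg_ind, h1]
  refine havg_congr fun sig _ => ?_
  have hU' : ∀ u ∈ U, u.len < n - s := fun u hu => by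
    rw [lt_tsub_iff_left]
    exact hU u hu
  have h2 : Rec R (fun i : Wd M => havg (W (k + 1) N) (fun y => GE P E U sig i y)) := by
    have h1 : Rec R (fun p : Wd M × Wd M => GE P E U sig p.1 p.2) :=
      Rec_GE hE U (by fun_prop) (by fun_prop) (by fun_prop)
    fun_prop
  unfold HE
  rw [← havg_W_take hP (tsub_le_self : n - s ≤ n) h2]
  refine havg_congr fun i _ => havg_congr fun y _ => ?_
  exact GE_take hU' i y

/-- the first probability, for a fixed `sig` -/
theorem first (h91 : Stmt_B91) (h92 : Stmt_B92) (hc : Stmt_B_PHC) (R : Set (M → M)) [IsWorld R]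
    {k S P N n sig : M} {e : KK M} {E : Wd M → Prop} {U : FSet M (Wd M)} {x : Wd M}
    (hS : 0 < S) (hP : 0 < P) (hn : 0 < n) (he : 0 < e)
    (heP : ((k + 1 : M) : KK M) / (e * e) ≤ P) (hN : N = (S + n) * P) (hE : Rec R E)
    (hx : x ∈ Wlt (k + 1) n) (hU : ∀ u ∈ U, x.len + u.len < n) (hsig : sig < S) :
    |havg (W P n) (fun i => havg (W (k + 1) N) (fun y =>
        ind M (∀ u ∈ U, E (TE P (sig, i, y) (x ++ u))))) -
      HE (k + 1) P N (n - x.len) E U (sig + x.len)| ≤ x.len * e := by
  have hκ : 0 < k + 1 := lt_succ.2 (zero_le' k)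
  obtain ⟨hx1, hx2⟩ := mem_Wlt.1 hx
  have hB := h91 M R k S P N n hS hP hn hN
  have hxW : x ∈ W (k + 1) x.len := mem_W.2 ⟨rfl, hx2⟩
  have hns : x.len + (n - x.len) = n := add_tsub_cancel_of_le hx1.le
  -- split the word `i`
  have hrec1 : Rec R (fun i : Wd M => havg (W (k + 1) N) (fun y =>
      ind M (∀ u ∈ U, E (TE P (sig, i, y) (x ++ u))))) := by fun_prop
  have h1 : havg (W P n) (fun i => havg (W (k + 1) N) (fun y =>
        ind M (∀ u ∈ U, E (TE P (sig, i, y) (x ++ u))))) =
      havg (W P (n - x.len)) (fun i2 => havg (W P x.len) (fun i1 => havg (W (k + 1) N) (fun y =>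
        GE P E U (sig + x.len) i2 (ins (lamE P sig (i1 ++ i2)) y x)))) := by
    conv_lhs => rw [← hns]
    rw [havg_W_add (R := R) _ _ _ hrec1, havg_comm (R := R) (by fun_prop)]
    refine havg_congr fun i2 hi2 => havg_congr fun i1 hi1 => havg_congr fun y hy => ?_
    unfold GE
    refine ind_congr (forall₂_congr fun u hu => ?_)
    have hi : i1 ++ i2 ∈ W P n := by
      rw [← hns]
      exact append_mem_W hi1 hi2
    have hlen : i1.len = x.len := (mem_W.1 hi1).1
    have h2 : TE P (sig, i1 ++ i2, y) (x ++ u) =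
        Phi (lamE P (sig + x.len) i2) (ins (lamE P sig (i1 ++ i2)) y x) u := by
      unfold TE
      dsimp only
      rw [hc M R (lamE P sig (i1 ++ i2)) y x u (by fun_prop) ?_ ?_]
      · congr 1
        funext j
        rw [← hlen]
        exact lamE_append P sig i1 i2 j
      · rw [(mem_W.1 hy).1]
        exact (hB.2.2.2.1 sig hsig _ hi _ (hU u hu)).le
      · intro j _ i hij
        exact hB.2.2.1 sig _ hi i j hij
    rw [h2]
  rw [h1]
  unfold HE
  have hrec2 : Rec R (fun p : Wd M × Wd M => GE P E U (sig + x.len) p.1 p.2) :=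
    Rec_GE hE U (by fun_prop) (by fun_prop) (by fun_prop)
  have hrec3 : Rec R (fun p : (Wd M × Wd M) × Wd M => GE P E U (sig + x.len) p.1.1
      (ins (lamE P sig (p.1.2 ++ p.1.1)) p.2 x)) :=
    Rec_GE hE U (by fun_prop) (by fun_prop) (by fun_prop)
  refine abs_havg_sub_le (R := R) (W_nonempty hP _) (by fun_prop) (by fun_prop) fun i2 _ => ?_
  have hle : (sig + x.len) * P ≤ N := by
    rw [hN]
    have : sig + x.len ≤ S + n := add_le_add hsig.le hx1.le
    gcongr
  exact h92 M R (k + 1) N P sig x i2 e (fun y => GE P E U (sig + x.len) i2 y) hκ he heP hle hxW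
    (by fun_prop) fun y _ => ⟨GE_nonneg _ _ _ _ _ _, GE_le_one _ _ _ _ _ _⟩

end B94

theorem B94_thm (h91 : Stmt_B91) (h92 : Stmt_B92) (h93 : Stmt_B93) (hc : Stmt_B_PHC) :
    Stmt_B94 := by
  intro M _ _ R _ k S P N n eps E x U hn heps hS hP hN hE hx hU
  have hκ : 0 < k + 1 := lt_succ.2 (zero_le' k)
  have hκ' : (0 : KK M) < ((k + 1 : M) : KK M) := cK_pos.2 hκ
  have hn' : (0 : KK M) < (n : KK M) := cK_pos.2 hn
  have hx1 := (mem_Wlt.1 hx).1
  have hs' : (x.len : KK M) ≤ n := cK_le.2 hx1.le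
  have hs0 : (0 : KK M) ≤ x.len := cK_nonneg _
  have hS' : (0 : KK M) < (S : KK M) := lt_of_lt_of_le (by positivity) hS
  have hS0 : 0 < S := cK_pos.1 hS'
  set e : KK M := eps / (4 * n) with he
  have he0 : 0 < e := by positivity
  have hP' : (0 : KK M) < (P : KK M) := lt_of_lt_of_le (by positivity) hP
  have hP0 : 0 < P := cK_pos.1 hP'
  rw [B94.second h91 R hS0 hP0 hn hN hE hU]
  have h1 := (h91 M R k S P N n hS0 hP0 hn hN).2.1
    (fun ω => ind M (∀ u ∈ U, E (TE P ω (x ++ u)))) (by fun_prop)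
  rw [hpr_eq_havg_ind, h1]
  have hrec := B94.Rec_HE (R := R) (k + 1) P N (n - x.len) hE U
  have h2 := B94.abs_havg_sub_le (R := R) (S := rng S) ⟨0, mem_rng.2 hS0⟩
    (f := fun sig => havg (W P n) (fun i => havg (W (k + 1) N) (fun y =>
        ind M (∀ u ∈ U, E (TE P (sig, i, y) (x ++ u))))))
    (g := fun sig => B94.HE (k + 1) P N (n - x.len) E U (sig + x.len))
    (c := x.len * e) (by fun_prop) (by fun_prop) fun sig hsig =>
      B94.first h91 h92 hc R hS0 hP0 hn he0 hP hN hE hx hU (mem_rng.1 hsig)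
  have h3 := h93 M R S x.len (fun sig => B94.HE (k + 1) P N (n - x.len) E U sig) hS0 hrec
    (fun j => B94.HE_mem R hκ hP0 N (n - x.len) hE U j)
  have h4 : (x.len : KK M) * e ≤ eps / 4 := by
    have : (n : KK M) * e = eps / 4 := by
      rw [he]
      field_simp
    rw [← this]
    gcongr
  have h5 : (x.len : KK M) / S ≤ eps / 4 := by
    rw [div_le_iff₀ hS']
    rw [div_le_iff₀ heps] at hS
    linarith
  have h6 := abs_sub_le (havg (rng S) (fun sig => havg (W P n) (fun i => havg (W (k + 1) N)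
    (fun y => ind M (∀ u ∈ U, E (TE P (sig, i, y) (x ++ u)))))))
    (havg (rng S) (fun sig => B94.HE (k + 1) P N (n - x.len) E U (sig + x.len)))
    (havg (rng S) (fun sig => B94.HE (k + 1) P N (n - x.len) E U sig))
  refine h6.trans ?_
  refine (add_le_add h2 h3).trans ?_
  linarith

end Pool.Agent.OVW
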