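import Pool.Agent.OVW.StmtsB8
import Pool.Agent.OVW.B.Mean

/-! # Block B, section 9: B95, the beginning of the random embedding has a random level -/

set_option autoImplicit false

namespace Pool.Agent.OVW

open Classical

set_option linter.unusedSectionVars false

namespace B95

variable {M : Type} [Arith M] [HasWorld M] {R : Set (M → M)} [IsWorld R]

/-- `ins` with the empty word does nothing -/
theorem ins_wnil (lam : M → M) (y : Wd M) : ins lam y wnil = y := by
  unfold ins
  rw [wd_congr (g := y.get), wd_get]
  intro i _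
  rw [if_neg]
  rintro ⟨j, hj, -⟩
  rw [len_wnil] at hj
  exact absurd hj (not_lt.2 (zero_le' j))

theorem TE_wnil (P sig : M) (i y : Wd M) :
    TE P (sig, i, y) wnil = y.take (sig * P + i.get 0) := by
  unfold TE Phi lamE
  rw [ins_wnil, len_wnil, add_zero]

/-- the average over the words of a function of the first letter -/
theorem havg_first {P n : M} (hP : 0 < P) (hn : 0 < n) {g : M → KK M} (hg : Rec R g) :
    havg (W P n) (fun i => g (i.get 0)) = havg (rng P) g := by
  have h1 : (1 : M) ≤ n := one_le_iff.2 hn.ne'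
  have e1 : havg (W P n) (fun i => g (i.get 0)) = havg (W P n) (fun i => g ((i.take 1).get 0)) := by
    refine havg_congr fun i _ => ?_
    rw [get_take (zero_lt_one (α := M))]
  have hgr : Rec R (fun u : Wd M => g (u.get 0)) := by fun_prop
  rw [e1, havg_W_take hP h1 hgr, havg_W_one P hgr]
  refine havg_congr fun c _ => ?_
  rw [get_wsing]

/-- average of averages over blocks -/
theorem havg_rng_mul {S P : M} (hS : 0 < S) (hP : 0 < P) {d : M → KK M} (hd : Rec R d) :
    havg (rng (S * P)) d = havg (rng S) (fun i => havg (rng P) (fun j => d (i * P + j))) := by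
  have hS' : (0 : KK M) < (S : KK M) := cK_pos.2 hS
  have hP' : (0 : KK M) < (P : KK M) := cK_pos.2 hP
  unfold havg
  simp only [div_eq_mul_inv]
  rw [hsum_mul_right (R := R) _ (f := fun i => hsum (rng P) (fun j => d (i * P + j)))
    (by fun_prop), card_rng, card_rng, card_rng, hsum_rng_mul hd, cK_mul, mul_inv]
  ring

end B95

open B95 in
theorem B95_thm (h91 : Stmt_B91) : Stmt_B95 := by
  intro M _ _ R _ k S P N n eps E hn heps hS hP hN hE
  have hnK : (0 : KK M) < (n : KK M) := cK_pos.2 hn
  have hSK : (0 : KK M) < (S : KK M) := lt_of_lt_of_le (by positivity) hS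
  have hS0 : 0 < S := cK_pos.1 hSK
  have hPK : (0 : KK M) < (P : KK M) := cK_pos.2 hP
  have hk : 0 < k + 1 := lt_succ.2 (zero_le' k)
  obtain ⟨-, hav, -⟩ := h91 M R k S P N n hS0 hP hn hN
  set d : M → KK M := fun l => havg (W (k + 1) l) (fun x => ind M (E x)) with hd
  have hdr : Rec R d := by rw [hd]; fun_prop
  have hd0 : ∀ l, 0 ≤ d l := fun l => (mean_W R hk l).nonneg (by fun_prop) fun _ _ => ind_nonneg _
  have hd1 : ∀ l, d l ≤ 1 := fun l => (mean_W R hk l).le_of (by fun_prop) fun _ _ => ind_le_one _
  have hlt : ∀ sig < S, ∀ c < P, sig * P + c ≤ N := by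
    intro sig hsig c hc
    have h1 : sig * P + P ≤ S * P := by
      have : (sig + 1) * P ≤ S * P := mul_le_mul_left (succ_le.2 hsig) P
      rwa [add_mul, one_mul] at this
    have h2 : S * P ≤ N := by
      rw [hN, add_mul]
      exact le_self_add
    exact (add_le_add_right hc.le _).trans (h1.trans h2)
  refine ⟨?_, ?_⟩
  · rw [hpr_eq_havg_ind, hav (fun ω => ind M (E (TE P ω wnil))) (by fun_prop),
      havg_rng_mul hS0 hP hdr]
    refine havg_congr fun sig hsig => ?_
    have hsig := mem_rng.1 hsig
    rw [← havg_first (R := R) (P := P) (n := n) hP hn (g := fun c => d (sig * P + c))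
      (by fun_prop)]
    refine havg_congr fun i hi => ?_
    have hi0 : i.get 0 < P := (mem_W.1 hi).2 0 hn
    have hEr : Rec R (fun x => ind M (E x)) := by fun_prop
    have e := havg_W_take (R := R) hk (hlt sig hsig _ hi0) hEr
    refine Eq.trans ?_ e
    refine havg_congr fun y _ => ?_
    rw [TE_wnil]
  · have h5 : hsum (rng N) d ≤ hsum (rng (S * P)) d + (n : KK M) * P := by
      rw [hN, add_mul, hsum_rng_add hdr]
      have h := hsum_le_hsum (R := R) (S := rng (n * P)) (f := fun x => d (S * P + x))
        (g := fun _ => (1 : KK M)) (by fun_prop) (by fun_prop) fun x _ => hd1 _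
      rw [hsum_const, card_rng, mul_one, cK_mul] at h
      linarith
    have h6 : 0 ≤ hsum (rng (S * P)) d := hsum_nonneg hdr fun l _ => hd0 l
    have hNK : (N : KK M) = (S + n) * P := by rw [hN, cK_mul, cK_add]
    have hNp : (0 : KK M) < (N : KK M) := by rw [hNK]; positivity
    show hsum (rng N) d / ((rng N).card : KK M) - eps / 4 ≤
      hsum (rng (S * P)) d / ((rng (S * P)).card : KK M)
    rw [card_rng, card_rng, cK_mul]
    have h7 : hsum (rng (S * P)) d / (N : KK M) ≤ hsum (rng (S * P)) d / ((S : KK M) * P) := by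
      refine div_le_div_of_nonneg_left h6 (by positivity) ?_
      rw [hNK]
      nlinarith
    have h8 : hsum (rng N) d / (N : KK M) ≤
        hsum (rng (S * P)) d / (N : KK M) + (n : KK M) * P / N := by
      rw [← add_div]
      exact div_le_div_of_nonneg_right h5 hNp.le
    have h9 : (n : KK M) * P / N ≤ eps / 4 := by
      rw [div_le_iff₀ heps] at hS
      rw [hNK, div_le_iff₀ (by positivity)]
      nlinarith [mul_pos hPK heps, mul_pos (mul_pos hPK heps) hnK,
        mul_le_mul_of_nonneg_right hS hPK.le]
    linarith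

end Pool.Agent.OVW
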