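import Pool.Agent.OVW.StmtsB8

/-!
# OVW, block B, the words `e(t)` of Lemma 10
-/

set_option autoImplicit false
set_option linter.unusedSectionVars false

namespace Pool.Agent.OVW

open Classical

namespace BE

variable {M : Type} [Arith M] [HasWorld M] {R : Set (M → M)} [IsWorld R]

theorem wsub_wjoin {f : M → Wd M} (hf : Rec R f) (b c r : M) :
    wsub b (wjoin r f) c = wjoin r (fun i => wsub b (f i) c) := by
  refine ind_rec (R := R) (p := fun r => wsub b (wjoin r f) c =
    wjoin r (fun i => wsub b (f i) c)) (by fun_prop) ?_ ?_ r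
  · rw [wjoin_zero, wjoin_zero]
    exact len_eq_zero.1 (by rw [len_wsub, len_wnil])
  · intro n ih
    rw [wjoin_succ hf, wsub_append, ih,
      wjoin_succ (R := R) (g := fun i => wsub b (f i) c) (by fun_prop)]

theorem wsub_wsub (k c a : M) (u : Wd M) :
    wsub k (wsub k u c) a = wsub k u (if c = k then a else c) := by
  refine Wd.ext' (by rw [len_wsub, len_wsub, len_wsub]) fun i hi => ?_
  rw [len_wsub] at hi
  have hi' := hi
  rw [len_wsub] at hi'
  rw [get_wsub hi, get_wsub hi', get_wsub hi']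
  by_cases h : u.get i = k
  · rw [if_pos h, if_pos h]
  · rw [if_neg h, if_neg h, if_neg h]

theorem drop_drop (a b : M) (Z : Wd M) : (Z.drop a).drop b = Z.drop (a + b) := by
  refine Wd.ext' (by rw [len_drop, len_drop, len_drop, tsub_tsub]) fun i _ => ?_
  rw [get_drop, get_drop, get_drop, add_assoc]

theorem eW_append {k s : M} {Wf : Wd M → Wd M} (hW : Rec R Wf) (Z x t : Wd M) :
    eW k s Wf Z (x ++ t) = eW k s Wf Z x ++ eW k s Wf (Z.drop (s * x.len)) t := by
  unfold eW
  rw [len_append, wjoin_add (R := R) (g := fun i =>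
    wsub k (Wf ((Z.drop (s * i)).take s)) ((x ++ t).get i)) (by fun_prop)]
  congr 1
  · exact wjoin_congr fun i hi => by rw [get_append_left hi]
  · refine wjoin_congr fun i _ => ?_
    rw [get_append_right, drop_drop, mul_add]

theorem eW_wsing {k s : M} {Wf : Wd M → Wd M} (hW : Rec R Wf) (Z : Wd M) (a : M) :
    eW k s Wf Z (wsing a) = wsub k (Wf (Z.take s)) a := by
  unfold eW
  rw [len_wsing, ← zero_add (1 : M), wjoin_succ (R := R) (g := fun i =>
    wsub k (Wf ((Z.drop (s * i)).take s)) ((wsing a).get i)) (by fun_prop), wjoin_zero,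
    nil_append, mul_zero, drop_zero, get_wsing]

theorem wsub_eW {k s : M} {Wf : Wd M → Wd M} (hW : Rec R Wf) (Z t : Wd M) (a : M) :
    wsub k (eW k s Wf Z t) a = eW k s Wf Z (wsub k t a) := by
  unfold eW
  rw [wsub_wjoin (R := R) (by fun_prop), len_wsub]
  refine wjoin_congr fun i hi => ?_
  rw [wsub_wsub, get_wsub hi]

theorem wsub_mem {k l c : M} {u : Wd M} (hu : u ∈ W (k + 1) l) (hc : c < k + 1) :
    wsub k u c ∈ W (k + 1) l := by
  rw [mem_W] at hu ⊢
  refine ⟨by rw [len_wsub]; exact hu.1, fun i hi => ?_⟩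
  rw [get_wsub (by rw [hu.1]; exact hi)]
  split_ifs
  · exact hc
  · exact hu.2 i hi

theorem bd {k s B j : M} {Wf : Wd M → Wd M} (hR : Rec R Wf)
    (hW : ∀ z ∈ W (k + 1) s, Wf z ∈ W (k + 1) (Wf z).len ∧ (Wf z).len ≤ B)
    {Z : Wd M} (hZ : Z ∈ W (k + 1) (s * j)) {t : Wd M} (ht : t ∈ W (k + 1) t.len)
    (hj : t.len ≤ j) :
    eW k s Wf Z t ∈ W (k + 1) (eW k s Wf Z t).len ∧ (eW k s Wf Z t).len ≤ t.len * B := by
  set F : M → Wd M := fun i => wsub k (Wf ((Z.drop (s * i)).take s)) (t.get i) with hF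
  have hFR : Rec R F := by rw [hF]; fun_prop
  have key : ∀ r ≤ t.len, wjoin r F ∈ W (k + 1) (wjoin r F).len ∧ (wjoin r F).len ≤ r * B := by
    refine ind_rec_lt (R := R) (p := fun r => wjoin r F ∈ W (k + 1) (wjoin r F).len ∧
      (wjoin r F).len ≤ r * B) (by fun_prop) t.len ?_ ?_
    · rw [wjoin_zero, len_wnil]
      exact ⟨wnil_mem_W _, zero_le⟩
    · intro r hr ih
      have h1 : s * r + s ≤ s * j := by
        calc s * r + s = s * (r + 1) := by rw [mul_add, mul_one]
          _ ≤ s * j := mul_le_mul_right (succ_le.2 (hr.trans_le hj)) s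
      have h2 : (Z.drop (s * r)).take s ∈ W (k + 1) s :=
        take_mem_W (drop_mem_W hZ) (le_tsub_of_add_le_left h1)
      obtain ⟨h3, h4⟩ := hW _ h2
      have h5 : F r ∈ W (k + 1) (Wf ((Z.drop (s * r)).take s)).len :=
        wsub_mem h3 ((mem_W.1 ht).2 r hr)
      rw [wjoin_succ hFR]
      have h6 := append_mem_W ih.1 h5
      have h7 := (mem_W.1 h6).1
      refine ⟨by rw [h7]; exact h6, ?_⟩
      rw [h7, add_mul, one_mul]
      exact add_le_add ih.2 h4
  exact key t.len le_rfl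

end BE

theorem BE_thm : Stmt_BE := by
  intro M _ _ R _ k s Wf hW
  refine ⟨fun Z x v a => ?_, fun B j hB Z hZ t ht hj => BE.bd hW hB hZ ht hj⟩
  rw [BE.eW_append hW, BE.eW_append hW, BE.eW_wsing hW, len_append, len_wsing,
    ← BE.wsub_eW hW, append_assoc, ← wsub_append]

end Pool.Agent.OVW
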