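import Pool.Agent.OVW.StmtsB8
import Pool.Agent.OVW.B.Mean

/-!
# Block B, section 5: one letter
-/

namespace Pool.Agent.OVW

open Classical

set_option linter.unusedSectionVars false

namespace BK1

variable {M : Type} [Arith M] [HasWorld M] {R : Set (M → M)} [IsWorld R]

/-- the word of length `l` with letters `0` -/
noncomputable def zw (l : M) : Wd M := wd l (fun _ => 0)

@[fun_prop] theorem Rec.zw {γ : Type} [Cod M γ] {l : γ → M} (h : Rec R l) :
    Rec R (fun x => zw (l x)) := by
  unfold BK1.zw; fun_prop

theorem len_zw (l : M) : (zw l).len = l := len_wd _ _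

theorem get_zw (R : Set (M → M)) [IsWorld R] {l i : M} (h : i < l) : (zw l).get i = 0 :=
  get_wd (R := R) (by fun_prop) h

theorem W_one (R : Set (M → M)) [IsWorld R] (l : M) : W 1 l = {zw l} := by
  apply FSet.ext
  intro u
  rw [mem_W, mem_singleton]
  constructor
  · rintro ⟨h1, h2⟩
    apply Wd.ext'
    · rw [h1, len_zw]
    · intro i hi
      rw [h1] at hi
      rw [get_zw R hi]
      exact Arith.lt_one _ (h2 i hi)
  · rintro rfl
    refine ⟨len_zw l, fun i hi => ?_⟩
    rw [get_zw R hi]
    exact one_pos

theorem havg_one (R : Set (M → M)) [IsWorld R] (l : M) {φ : Wd M → KK M} (hφ : Rec R φ) :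
    havg (W 1 l) φ = φ (zw l) := by
  rw [W_one R, havg, hsum_singleton (R := R) _ hφ, card_singleton, cK_one, div_one]

theorem zw_append (R : Set (M → M)) [IsWorld R] (a d : M) :
    zw a ++ wsing 0 ++ wsub 1 (zw d) 0 = zw (a + 1 + d) := by
  apply Wd.ext'
  · simp [len_zw]
  · intro i hi
    have hi' : i < a + 1 + d := by simpa [len_zw] using hi
    rw [get_zw R hi']
    by_cases h1 : i < a
    · rw [get_append_left, get_append_left]
      · exact get_zw R h1
      · rw [len_zw]; exact h1
      · rw [len_append, len_zw, len_wsing]; exact lt_succ.2 h1.le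
    · push Not at h1
      by_cases h2 : i < a + 1
      · have h3 : i = a := le_antisymm (lt_succ.1 h2) h1
        subst h3
        rw [get_append_left]
        · have h4 := get_append_right (u := zw i) (v := wsing (0 : M)) 0
          rw [len_zw, add_zero, get_wsing] at h4
          exact h4
        · rw [len_append, len_zw, len_wsing]; exact h2
      · push Not at h2
        obtain ⟨e, rfl⟩ := le_iff_exists_add.1 h2
        have he : e < d := lt_of_add_lt_add_left hi'
        have h4 := get_append_right (u := zw a ++ wsing (0 : M)) (v := wsub 1 (zw d) 0) e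
        rw [len_append, len_zw, len_wsing] at h4
        rw [h4, get_wsub (by rw [len_zw]; exact he), get_zw R he]
        split_ifs <;> rfl

end BK1

open BK1 in
theorem BK1_thm : Stmt_BK1 := by
  intro M _ _ R _ dl hdl
  refine ⟨kceil (1 / dl) + 1, lt_succ.2 (zero_le' _), ?_⟩
  obtain ⟨n, hn⟩ : ∃ n : M, n = kceil (1 / dl) + 1 := ⟨_, rfl⟩
  rw [← hn]
  have hn0 : 0 < n := by rw [hn]; exact lt_succ.2 (zero_le' _)
  have hnK : (1 / dl : KK M) < n := by
    rw [hn, cK_add, cK_one]
    have := le_kceil (M := M) (1 / dl)
    linarith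
  intro E hE hfree
  have e1 : FW 1 n (fun x => ind M (x ∈ E)) =
      hsum (rng n) (fun l => ind M (zw l ∈ E)) / n := by
    unfold FW
    have h2 : havg (rng n) (fun l => havg (W 1 l) (fun x => ind M (x ∈ E))) =
        havg (rng n) (fun l => ind M (zw l ∈ E)) :=
      havg_congr fun l hl => havg_one R l (φ := fun x => ind M (x ∈ E)) (by fun_prop)
    rw [h2, havg, card_rng]
  have e2 : hsum (rng n) (fun l => ind M (zw l ∈ E)) ≤ 1 := by
    by_cases hex : ∃ l, l < n ∧ zw l ∈ E
    · obtain ⟨l0, hl0, hm⟩ := hex
      have hne : ∀ a b, a < b → b < n → zw a ∈ E → zw b ∈ E → False := by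
        intro a b hab hbn ha hb
        obtain ⟨d, rfl⟩ := le_iff_exists_add.1 (succ_le.2 hab)
        have hd1 : a < n := hab.trans hbn
        have hd2 : d < n := lt_of_le_of_lt (le_add_self) hbn
        refine hfree (zw a) ?_ (zw d) ?_ ?_ ⟨ha, ?_⟩
        · rw [mem_Wlt, len_zw]
          exact ⟨hd1, fun i hi => by rw [get_zw R hi]; exact one_pos⟩
        · rw [mem_Wlt, len_zw]
          exact ⟨hd2, fun i hi => by rw [get_zw R hi]; exact lt_succ.2 (zero_le' _)⟩
        · rw [len_zw, len_zw]
          exact hbn
        · intro c hc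
          have : c = 0 := Arith.lt_one c hc
          subst this
          show zw a ++ wsing 0 ++ wsub 1 (zw d) 0 ∈ E
          rw [zw_append R]
          exact hb
      have h3 : hsum (rng n) (fun l => ind M (zw l ∈ E)) ≤
          hsum (rng n) (fun l => if l = l0 then (1 : KK M) else 0) := by
        refine hsum_le_hsum (R := R) (by fun_prop) (by fun_prop) fun l hl => ?_
        by_cases h : l = l0
        · rw [if_pos h]
          exact ind_le_one _
        · rw [if_neg h, ind_false]
          intro hlE
          rcases lt_or_gt_of_ne h with h4 | h4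
          · exact hne l l0 h4 hl0 hlE hm
          · exact hne l0 l h4 (mem_rng.1 hl) hm hlE
      have h5 : hsum (rng n) (fun l => if l = l0 then (1 : KK M) else 0) = 1 := by
        rw [← hsum_ite_eq (mem_rng.2 hl0) (1 : KK M)]
        refine hsum_congr fun l _ => ?_
        by_cases h : l = l0
        · rw [if_pos h, if_pos h, hsum_ite_eq (mem_rng.2 hl0)]
        · rw [if_neg h, if_neg h]
      exact h3.trans h5.le
    · have h3 : hsum (rng n) (fun l => ind M (zw l ∈ E)) = hsum (rng n) (fun _ => (0 : KK M)) :=
        hsum_congr fun l hl => ind_false fun h => hex ⟨l, mem_rng.1 hl, h⟩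
      rw [h3, hsum_zero]
      exact zero_le_one
  rw [e1]
  have hnpos : (0 : KK M) < n := cK_pos.2 hn0
  rw [div_lt_iff₀ hnpos]
  have h5 : 1 < dl * n := by
    rw [div_lt_iff₀ hdl] at hnK
    rw [mul_comm]
    exact hnK
  exact lt_of_le_of_lt e2 h5

end Pool.Agent.OVW
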