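import Pool.Agent.OVW.StmtsB8
import Pool.Agent.OVW.B.Mean

set_option autoImplicit false
set_option linter.unusedSectionVars false

/-!
# Block B, section 5: the induction step of the density Carlson-Simpson theorem
-/

namespace Pool.Agent.OVW

open Classical

namespace BKS

variable {M : Type} [Arith M] [HasWorld M] {R : Set (M → M)} [IsWorld R]

/-- The inverse image of a free set under a tree is free. -/
theorem free_inv {k m n : M} {T : Wd M → Wd M} (hT : Tree k m n T) {E E0 : Wd M → Prop}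
    (hE : Free (k + 1) n E) (h0 : ∀ z, E0 z → E (T z)) : Free (k + 1) m E0 := by
  intro x hx w hw hl hc
  obtain ⟨v, hv, hl1, hvc⟩ := hT.2.2.1 x hx w hw hl
  refine hE (T x) (hT.1 x hx) v hv hl1 ⟨h0 _ hc.1, fun c hcc => ?_⟩
  rw [← hvc c hcc]
  exact h0 _ (hc.2 c hcc)

end BKS

open BKS in
/-- BKS. -/
theorem BKS_thm : Stmt_BKS := by
  intro M _ _ R _ k hk hL10 hB dl hdl
  obtain ⟨hh, hhR, hB⟩ := hB
  obtain ⟨ga, hga, hinc⟩ := hL10 k hh hk hhR hB dl hdl
  have hκ : 0 < k + 1 := lt_succ.2 (zero_le' k)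
  have key : ∀ j : M, ∃ N : M, 0 < N ∧ ∀ E ∈ (Wlt (k + 1) N).powerset,
      Free (k + 1) N (fun x => x ∈ E) → FW (k + 1) N (fun x => ind M (x ∈ E)) < dl ∨
        FW (k + 1) N (fun x => ind M (x ∈ E)) ≤ 1 - j * ga := by
    refine ind_sig1 (R := R) (q := fun (j N : M) => 0 < N ∧ ∀ E ∈ (Wlt (k + 1) N).powerset,
      Free (k + 1) N (fun x => x ∈ E) → FW (k + 1) N (fun x => ind M (x ∈ E)) < dl ∨
        FW (k + 1) N (fun x => ind M (x ∈ E)) ≤ 1 - j * ga) (by fun_prop) ?_ ?_
    · refine ⟨1, one_pos, fun E _ _ => Or.inr ?_⟩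
      rw [cK_zero, zero_mul, sub_zero]
      exact (mean_FW R hκ one_pos).le_of (f := fun x => ind M (x ∈ E)) (by fun_prop)
        fun x _ => ind_le_one _
    · rintro j ⟨N0, hN0, h1⟩
      rcases cases_succ N0 with h | ⟨m', rfl⟩
      · exact absurd h hN0.ne'
      obtain ⟨N, hN, h2⟩ := hinc m'
      refine ⟨N, hN, fun E _ hfree => ?_⟩
      by_cases h3 : FW (k + 1) N (fun x => ind M (x ∈ E)) < dl
      · exact Or.inl h3
      right
      rw [not_lt] at h3
      obtain ⟨T, hTR, hT, h4⟩ := h2 (fun x => x ∈ E) (by fun_prop) hfree h3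
      have hm : ∀ z, z ∈ (Wlt (k + 1) (m' + 1)).filter (fun z => T z ∈ E) ↔
          z ∈ Wlt (k + 1) (m' + 1) ∧ T z ∈ E := fun z => mem_filter (R := R) (by fun_prop)
      have h5 : FW (k + 1) N (fun x => ind M (x ∈ E)) + ga ≤ FW (k + 1) (m' + 1)
          (fun z => ind M (z ∈ (Wlt (k + 1) (m' + 1)).filter (fun z => T z ∈ E))) := by
        unfold FW
        refine (mean_rng R hN0).ge_of (by fun_prop) fun l hl => ?_
        have hl' : l < m' + 1 := mem_rng.1 hl
        refine (h4 l (lt_succ.1 hl')).trans (le_of_eq (havg_congr fun z hz => ?_))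
        refine ind_congr ?_
        rw [hm]
        exact ⟨fun h => ⟨mem_Wlt_iff.2 ⟨l, hl', hz⟩, h⟩, fun h => h.2⟩
      rcases h1 ((Wlt (k + 1) (m' + 1)).filter (fun z => T z ∈ E))
        (mem_powerset.2 fun z hz => ((hm z).1 hz).1)
        (free_inv hT hfree fun z hz => ((hm z).1 hz).2) with h6 | h6
      · linarith
      · push_cast
        linarith
  obtain ⟨N, hN, h1⟩ := key (kceil (1 / ga) + 1)
  refine ⟨N, hN, fun E hE hfree => ?_⟩
  rcases h1 E hE hfree with h2 | h2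
  · exact h2
  exfalso
  have h3 : 0 ≤ FW (k + 1) N (fun x => ind M (x ∈ E)) :=
    (mean_FW R hκ hN).nonneg (by fun_prop) fun x _ => ind_nonneg _
  have h4 : 1 / ga ≤ ((kceil (1 / ga) : M) : KK M) := le_kceil _
  rw [div_le_iff₀ hga] at h4
  push_cast at h2
  linarith

end Pool.Agent.OVW
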