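import Pool.Agent.OVW.StmtsB8
import Pool.Agent.OVW.B.Mean

/-!
# OVW, block B, BLN: there are lines
-/

set_option autoImplicit false
set_option linter.unusedSectionVars false

namespace Pool.Agent.OVW

open Classical

theorem BLN_thm : Stmt_BLN := by
  intro M _ _ R _ κ h c hκ hh hD
  refine ⟨fun hc => ?_, fun d hcd E hE hF => (hD E hE hF).trans_le hcd⟩
  have h1 : ¬ Free κ h (fun x => x ∈ Wlt κ h) := by
    intro hF
    have h3 := hD (Wlt κ h) (mem_powerset.2 fun a ha => ha) hF
    have h4 : FW κ h (fun x => ind M (x ∈ Wlt κ h)) = 1 := by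
      rw [← (mean_FW R hκ hh).one]
      exact (mean_FW R hκ hh).congr _ _ fun x hx => ind_true hx
    rw [h4] at h3
    exact absurd h3 (not_lt.2 hc)
  unfold Free at h1
  push Not at h1
  obtain ⟨x, hx, w, hw, hlen, -⟩ := h1
  refine card_pos.2 ⟨(x, w), ?_⟩
  unfold lineSet
  exact (mem_filter (R := R) (by fun_prop)).2 ⟨mem_prod.2 ⟨hx, hw⟩, hlen⟩

end Pool.Agent.OVW
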