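import Pool.Agent.OVW.StmtsB8

/-!
# Block B, BT1: the words `TTw` and the numbers `Len`
-/

namespace Pool.Agent.OVW

open Classical

set_option autoImplicit false
set_option linter.unusedSectionVars false

namespace BT1

variable {M : Type} [Arith M] [HasWorld M] {R : Set (M → M)} [IsWorld R]

theorem concat (k : M) {g : M → Wd M} (hg : Rec R g) (z : Wd M) (c : M) :
    TTw k g (z ++ wsing c) = TTw k g z ++ wsing c ++ g (z.len + 1) := by
  unfold TTw
  have h1 : (z ++ wsing c).get z.len = c := by
    rw [get_append_right' le_rfl, tsub_self, get_wsing]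
  have h2 : Rec R (fun i => wsing ((z ++ wsing c).get i) ++ g (i + 1)) := by fun_prop
  rw [len_append, len_wsing, wjoin_succ h2, h1]
  have h3 : wjoin z.len (fun i => wsing ((z ++ wsing c).get i) ++ g (i + 1)) =
      wjoin z.len (fun i => wsing (z.get i) ++ g (i + 1)) :=
    wjoin_congr fun i hi => by rw [get_append_left hi]
  rw [h3]
  simp only [append_assoc]

theorem congr (k : M) {g g' : M → Wd M} {z : Wd M} (h : ∀ i ≤ z.len, g i = g' i) :
    TTw k g z = TTw k g' z := by
  unfold TTw
  rw [h 0 zero_le, wjoin_congr (g := fun i => wsing (z.get i) ++ g (i + 1))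
    (g' := fun i => wsing (z.get i) ++ g' (i + 1)) fun i hi => by rw [h (i + 1) (succ_le.2 hi)]]

theorem nil (k : M) (g : M → Wd M) : TTw k g wnil = wsing k ++ g 0 := by
  unfold TTw
  rw [len_wnil, wjoin_zero, append_nil]

theorem Len_zero (h : M) : Len h 0 = 1 := prec_zero _ _

theorem Len_succ (h s : M) : Len h (s + 1) = (h + 1) * Len h s + 1 := by
  obtain ⟨R, hR⟩ := HasWorld.ex (M := M)
  exact prec_succ (R := R) _ (by fun_prop) _

theorem Len_mono (h s t : M) (hst : s ≤ t) : Len h s ≤ Len h t := by
  obtain ⟨R, hR⟩ := HasWorld.ex (M := M)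
  obtain ⟨d, rfl⟩ := le_iff_exists_add.1 hst
  refine ind_rec (R := R) (p := fun d => Len h s ≤ Len h (s + d)) (by fun_prop) ?_ ?_ d
  · rw [add_zero]
  · intro n ih
    rw [← add_assoc, Len_succ]
    calc Len h s ≤ Len h (s + n) := ih
      _ ≤ (h + 1) * Len h (s + n) := by
        rw [add_mul, one_mul]
        exact le_add_self
      _ ≤ _ := le_self_add

end BT1

theorem BT1_thm : Stmt_BT1 := by
  intro M _ _ R _ k h g hg
  refine ⟨BT1.concat k hg, ?_, ?_, ⟨BT1.Len_zero h, BT1.Len_succ h, BT1.Len_mono h⟩, ?_, ?_⟩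
  · intro z
    exact ⟨_, append_assoc _ _ _⟩
  · intro g' z _ hz
    exact BT1.congr k hz
  · intro hW z
    refine Wd.ind_snoc (R := R) (p := fun z => z ∈ W (k + 1) z.len →
      TTw k g z ∈ W (k + 1) (TTw k g z).len) (by fun_prop) ?_ ?_ z
    · intro _
      rw [BT1.nil, len_append]
      exact append_mem_W (by rw [len_wsing]; exact wsing_mem_W.2 (lt_succ.2 le_rfl)) (hW 0)
    · intro u c ih hu
      rw [len_append, append_mem_W_iff rfl] at hu
      rw [BT1.concat k hg, len_append, len_append]
      exact append_mem_W (append_mem_W (ih hu.1) hu.2) (hW _)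
  · intro hL z
    refine Wd.ind_snoc (R := R) (p := fun z => (TTw k g z).len ≤ (h + 1) * Len h z.len ∧
      (g z.len = wnil → (TTw k g z).len ≤ Len h z.len)) (by fun_prop) ?_ ?_ z
    · rw [BT1.nil, len_append, len_wsing, len_wnil, BT1.Len_zero]
      have h0 := hL 0
      rw [BT1.Len_zero] at h0
      refine ⟨?_, fun h1 => ?_⟩
      · calc 1 + (g 0).len ≤ 1 + h * 1 := add_le_add_right h0 1
          _ = _ := by ring
      · rw [h1, len_wnil, add_zero]
    · intro u c ih
      have h1 : (u ++ wsing c).len = u.len + 1 := by rw [len_append, len_wsing]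
      have h2 := hL (u.len + 1)
      rw [BT1.concat k hg, len_append, len_append, len_wsing, h1]
      have h3 : (TTw k g u).len + 1 ≤ Len h (u.len + 1) := by
        rw [BT1.Len_succ]
        exact add_le_add_left ih.1 1
      refine ⟨?_, fun h4 => ?_⟩
      · calc (TTw k g u).len + 1 + (g (u.len + 1)).len ≤
              Len h (u.len + 1) + h * Len h (u.len + 1) := add_le_add h3 h2
          _ = _ := by ring
      · rw [h4, len_wnil, add_zero]
        exact h3

end Pool.Agent.OVW
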