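import Pool.Agent.OVW.StmtsB8

/-!
# BT2: `TTw` is a tree
-/

set_option autoImplicit false

namespace Pool.Agent.OVW

open Classical

set_option linter.unusedSectionVars false

namespace BT2

variable {M : Type} [Arith M] [HasWorld M] {R : Set (M → M)} [IsWorld R]

/-- The later part of `TTw`. -/
noncomputable def VV (g : M → Wd M) (s : M) (z : Wd M) : Wd M :=
  wjoin z.len (fun i => wsing (z.get i) ++ g (s + i))

theorem TTw_eq (k : M) (g : M → Wd M) (z : Wd M) : TTw k g z = wsing k ++ g 0 ++ VV g 1 z := by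
  unfold TTw VV
  congr 1
  exact wjoin_congr fun i _ => by rw [add_comm]

theorem get_append_mid {u v w : Wd M} (i : M) :
    (u ++ v ++ w).get (u.len + v.len + i) = w.get i := by
  rw [← len_append, get_append_right]

theorem VV_append {g : M → Wd M} (hg : Rec R g) (s : M) (u v : Wd M) :
    VV g s (u ++ v) = VV g s u ++ VV g (s + u.len) v := by
  unfold VV
  rw [len_append, wjoin_add (R := R) (by fun_prop)]
  congr 1
  · exact wjoin_congr fun i hi => by rw [get_append_left hi]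
  · exact wjoin_congr fun i hi => by rw [get_append_right, add_assoc]

theorem VV_wsing {g : M → Wd M} (hg : Rec R g) (s c : M) :
    VV g s (wsing c) = wsing c ++ g s := by
  unfold VV
  rw [len_wsing, ← zero_add (1 : M), wjoin_succ (R := R) (by fun_prop), wjoin_zero, nil_append,
    get_wsing, add_zero]

theorem wsub_wjoin {f : M → Wd M} (hf : Rec R f) (b c r : M) :
    wsub b (wjoin r f) c = wjoin r (fun i => wsub b (f i) c) := by
  refine ind_rec (R := R) (p := fun r => wsub b (wjoin r f) c = wjoin r (fun i => wsub b (f i) c))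
    (by fun_prop) ?_ ?_ r
  · rw [wjoin_zero, wjoin_zero]
    exact wsub_of_no_var c fun i hi => absurd hi (by rw [len_wnil]; exact not_lt.2 (zero_le' i))
  · intro m ih
    rw [wjoin_succ hf, wjoin_succ (R := R) (g := fun i => wsub b (f i) c) (by fun_prop),
      wsub_append, ih]

theorem wsub_wsing (b d c : M) : wsub b (wsing d) c = wsing (if d = b then c else d) := by
  by_cases h : d = b
  · rw [if_pos h, h, wsub_wsing_self]
  · rw [if_neg h, wsub_wsing_of_ne c h]

/-- Substitution in the later part. -/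
theorem wsub_VV {g : M → Wd M} (hg : Rec R g) (b c s : M) (z : Wd M) :
    wsub b (VV g s z) c = VV (fun i => wsub b (g i) c) s (wsub b z c) := by
  unfold VV
  rw [wsub_wjoin (R := R) (by fun_prop), len_wsub]
  refine wjoin_congr fun i hi => ?_
  rw [wsub_append, wsub_wsing, get_wsub hi]

theorem mem_wjoin {κ : M} {f : M → Wd M} (hf : Rec R f) (h : ∀ i, f i ∈ W κ (f i).len) (r : M) :
    wjoin r f ∈ W κ (wjoin r f).len := by
  refine ind_rec (R := R) (p := fun r => wjoin r f ∈ W κ (wjoin r f).len)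
    (by fun_prop) ?_ ?_ r
  · rw [wjoin_zero, len_wnil]
    exact wnil_mem_W κ
  · intro m ih
    rw [wjoin_succ hf, len_append]
    exact append_mem_W ih (h m)

theorem get_lt {κ : M} (hκ : 0 < κ) {z : Wd M} (hz : ∀ i < z.len, z.get i < κ) (i : M) :
    z.get i < κ := by
  by_cases hi : i < z.len
  · exact hz i hi
  · rw [z.out i (not_lt.1 hi)]
    exact hκ

theorem mem_VV {κ : M} (hκ : 0 < κ) {g : M → Wd M} (hg : Rec R g)
    (h : ∀ i, g i ∈ W κ (g i).len) (s : M) {z : Wd M} (hz : ∀ i < z.len, z.get i < κ) :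
    VV g s z ∈ W κ (VV g s z).len := by
  unfold VV
  refine mem_wjoin (R := R) (by fun_prop) (fun i => ?_) _
  rw [len_append, len_wsing]
  exact append_mem_W (wsing_mem_W.2 (get_lt hκ hz i)) (h _)

theorem mem_TT {κ k : M} (hk : k < κ) {g : M → Wd M} (hg : Rec R g)
    (h : ∀ i, g i ∈ W κ (g i).len) {z : Wd M} (hz : ∀ i < z.len, z.get i < κ) :
    TTw k g z ∈ W κ (TTw k g z).len := by
  rw [TTw_eq, len_append, len_append, len_wsing]
  exact append_mem_W (append_mem_W (wsing_mem_W.2 hk) (h 0))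
    (mem_VV (R := R) (lt_of_le_of_lt (zero_le' k) hk) hg h 1 hz)

end BT2

theorem BT2_thm (h1 : Stmt_BT1) : Stmt_BT2 := by
  intro M _ _ R _ k m n g hg hgW hl1 hl2
  have hk1 : k < k + 1 := lt_succ.2 le_rfl
  have hk2 : k < k + 1 + 1 := hk1.trans (lt_succ.2 le_rfl)
  have hgW2 : ∀ i, g i ∈ W (k + 1 + 1) (g i).len := fun i =>
    W_mono (lt_succ.2 le_rfl : k + 1 < k + 1 + 1).le _ (hgW i)
  have hgs : ∀ c i, wsub (k + 1) (g i) c = g i := fun c i =>
    wsub_of_no_var c fun j hj => ((mem_W.1 (hgW i)).2 j hj).ne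
  have hsub : ∀ (s c : M) (z : Wd M),
      wsub (k + 1) (BT2.VV g s z) c = BT2.VV g s (wsub (k + 1) z c) := by
    intro s c z
    rw [BT2.wsub_VV (R := R) hg]
    congr 1
    funext i
    exact hgs c i
  have hex : ∀ (x w : Wd M) (c : M), TTw k g (x ++ wsing c ++ w) =
      TTw k g x ++ wsing c ++ (g (1 + x.len) ++ BT2.VV g (1 + x.len + 1) w) := by
    intro x w c
    rw [BT2.TTw_eq, BT2.VV_append (R := R) hg, BT2.VV_append (R := R) hg, BT2.VV_wsing (R := R) hg,
      len_append, len_wsing, BT2.TTw_eq, ← add_assoc]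
    simp only [append_assoc]
  refine ⟨?_, ?_, ?_, ?_⟩
  · intro z hz
    have h2 := BT2.mem_TT (R := R) hk1 hg hgW (mem_Wlt.1 hz).2
    exact mem_Wlt_iff.2 ⟨_, hl1 z hz, h2⟩
  · intro w hw
    refine ⟨TTw k g w, mem_Wlt_iff.2 ⟨_, hl2 w hw, BT2.mem_TT (R := R) hk2 hg hgW2
      (mem_Wlt.1 hw).2⟩, ?_⟩
    intro c hc
    rw [BT2.TTw_eq, BT2.TTw_eq, wsub_append, wsub_append, hgs, hsub,
      wsub_wsing_of_ne c hk1.ne]
  · intro x hx w hw hlen
    obtain ⟨hx1, hx2⟩ := mem_Wlt.1 hx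
    obtain ⟨hw1, hw2⟩ := mem_Wlt.1 hw
    have hv : g (1 + x.len) ++ BT2.VV g (1 + x.len + 1) w ∈
        W (k + 1 + 1) (g (1 + x.len) ++ BT2.VV g (1 + x.len + 1) w).len := by
      rw [len_append]
      exact append_mem_W (hgW2 _) (BT2.mem_VV (R := R) (lt_of_le_of_lt (zero_le' k) hk2) hg hgW2 _
        hw2)
    have hmain : ∀ c < k + 1, TTw k g (x ++ wsing c ++ wsub (k + 1) w c) =
        TTw k g x ++ wsing c ++ wsub (k + 1) (g (1 + x.len) ++ BT2.VV g (1 + x.len + 1) w) c := by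
      intro c _
      rw [hex, wsub_append, hgs, hsub]
    have h0 : (0 : M) < k + 1 := lt_succ.2 (zero_le' k)
    have hmem : x ++ wsing 0 ++ wsub (k + 1) w 0 ∈ Wlt (k + 1) m := by
      refine mem_Wlt_iff.2 ⟨x.len + 1 + w.len, hlen, ?_⟩
      refine append_mem_W (append_mem_W (mem_W.2 ⟨rfl, hx2⟩) (wsing_mem_W.2 h0)) ?_
      exact wsub_mem_W (mem_W.2 ⟨rfl, hw2⟩) h0
    have hle := hl1 _ hmem
    rw [hmain 0 h0, len_append, len_append, len_wsing, len_wsub] at hle
    refine ⟨_, mem_Wlt_iff.2 ⟨_, ?_, hv⟩, hle, hmain⟩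
    exact lt_of_le_of_lt le_add_self hle
  · intro a ha z hz z' hz' hzz
    rw [BT2.TTw_eq, BT2.TTw_eq, wsub_append, wsub_append _ (wsing k ++ g 0),
      BT2.wsub_VV (R := R) hg, BT2.wsub_VV (R := R) hg, hzz]

end Pool.Agent.OVW
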