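import Pool.Agent.OVW.StmtsB8
import Pool.Agent.OVW.B.Mean

/-! # The density Carlson-Simpson theorem in a jump pair of worlds (assembly) -/

namespace Pool.Agent.OVW

open Classical

set_option linter.unusedSectionVars false

theorem DCSfin_thm
    (h10 : ∀ (M : Type) [Arith M] [HasWorld M] (R0 R1 : Set (M → M)) [IsWorld R0] [IsWorld R1],
      R0 ⊆ R1 → JumpIn R0 R1 → StmtL10 R0)
    (h1 : Stmt_BK1) (hs : Stmt_BKS) : Stmt_DCS := by
  intro M _ _ R0 R1 _ _ hR hj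
  have key : ∀ k : M, ∀ dl : KK M, 0 < dl → ∃ n : M, 0 < n ∧ DCS (k + 1) dl n := by
    apply ind_pi1 (R := R1) (q := fun (k : M) (dl : KK M) => 0 < dl → ∃ n : M, 0 < n ∧ DCS (k + 1) dl n)
    · have h2 : Rec R1 (fun x : M × KK M => ∃ n : M, 0 < n ∧ DCS (x.1 + 1) x.2 n) :=
        Rec.jump_ex (R₀ := R0) hj (p := fun (x : M × KK M) (n : M) => 0 < n ∧ DCS (x.1 + 1) x.2 n)
          (by fun_prop)
      fun_prop
    · intro dl hdl
      obtain ⟨n, hn, h2⟩ := h1 M R0 dl hdl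
      exact ⟨n, hn, by rwa [zero_add]⟩
    · intro k hk dl hdl
      refine hs M R0 (k + 1) (lt_succ.2 (zero_le' k)) (h10 M R0 R1 hR hj) ?_ dl hdl
      obtain ⟨f, hf, h2⟩ := Rec.choice (R := R0) (α := KK M) (β := M)
        (P := fun dl n => 0 < dl → 0 < n ∧ DCS (k + 1) dl n) (by fun_prop) (fun dl => by
          by_cases h3 : 0 < dl
          · obtain ⟨n, h4⟩ := hk dl h3
            exact ⟨n, fun _ => h4⟩
          · exact ⟨0, fun h4 => absurd h4 h3⟩)
      exact ⟨f, hf, fun dl hdl => h2 dl hdl⟩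
  intro k hk dl hdl
  rcases cases_succ k with h0 | ⟨k', rfl⟩
  · exact absurd h0 (pos_iff.1 hk)
  · exact key k' dl hdl

end Pool.Agent.OVW
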