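import Pool.Agent.OVW.StmtsB8
import Pool.Agent.OVW.B.Mean

/-! # Lemma 10: the density increment (assembly) -/

namespace Pool.Agent.OVW

open Classical

set_option linter.unusedSectionVars false

theorem L10_thm (hB9 : Stmt_B9) (hT1 : Stmt_BT1) (hT2 : Stmt_BT2) (hc : Stmt_B10c)
    (hf : Stmt_B10f) (hg : Stmt_B10g) (hln : Stmt_BLN)
    (M : Type) [Arith M] [HasWorld M] (R : Set (M → M)) [IsWorld R] (htc : StmtTC M)
    (h7 : StmtL7 R) : StmtL10 R := by
  intro k hh hk hhr hb dl hdl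
  have hκ : (0 : M) < k + 1 := lt_succ.2 (zero_le' k)
  by_cases hdl1 : dl ≤ 1
  swap
  · refine ⟨1, one_pos, fun m' => ⟨1, one_pos, fun E hE _ h => ?_⟩⟩
    exfalso
    have h1 : FW (k + 1) 1 (fun x => ind M (E x)) ≤ 1 :=
      (mean_FW R hκ one_pos).le_of (by fun_prop) fun x _ => ind_le_one _
    exact hdl1 (h.trans h1)
  have hd0 : 0 < min (dl / 2 / 2) (1 : KK M) := lt_min (by positivity) one_pos
  obtain ⟨hh0, hD0⟩ := hb _ hd0
  set h : M := hh (min (dl / 2 / 2) 1) with hhdef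
  have hln' := hln M R k h _ hk hh0 hD0
  have hD : DCS k (dl / 2 / 2) h := hln'.2 _ (min_le_left _ _)
  have hcard : 0 < (lineSet k h).card := hln'.1 (min_le_right _ _)
  set Lam : KK M := ((lineSet k h).card : KK M) with hLam
  have hLam1 : 1 ≤ Lam := by
    rw [hLam]
    have : (1 : M) ≤ (lineSet k h).card := one_le_iff.2 (pos_iff.1 hcard)
    exact_mod_cast this
  have hLam0 : 0 < Lam := lt_of_lt_of_le one_pos hLam1
  set gam0 : KK M := dl / 2 / 2 / Lam / 2 / Lam with hgam0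
  have hgam0' : 0 < gam0 := by positivity
  have hgam1 : gam0 ≤ 1 := by
    have h1 : dl / 2 / 2 / Lam ≤ 1 := by
      rw [div_le_iff₀ hLam0]; linarith
    have h2 : dl / 2 / 2 / Lam / 2 / Lam ≤ 1 := by
      rw [div_le_iff₀ hLam0]; linarith
    exact h2
  set ga : KK M := dl * gam0 / 8 with hga
  have hga' : 0 < ga := by positivity
  have hga1 : 2 * ga ≤ 1 := by
    have : dl * gam0 ≤ 1 * 1 := mul_le_mul hdl1 hgam1 hgam0'.le zero_le_one
    rw [hga]; linarith
  have hk1 : (1 : KK M) ≤ k := by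
    have : (1 : M) ≤ k := one_le_iff.2 (pos_iff.1 hk)
    exact_mod_cast this
  have hk0 : (0 : KK M) < k := lt_of_lt_of_le one_pos hk1
  refine ⟨ga, hga', fun m' => ?_⟩
  obtain ⟨n7f, -, h7'⟩ := h7 k hh hk hhr hb
  obtain ⟨hn7, h7''⟩ := h7' k m' (2 * ga / k) ga hk (by positivity)
    ((div_le_one hk0).2 (hga1.trans hk1)) hga' (by linarith)
  set n7 : M := n7f k m' (2 * ga / k) ga with hn7def
  obtain ⟨m, hm⟩ : ∃ m, n7 = m + 1 := by
    rcases cases_succ n7 with h0 | h0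
    · exact absurd h0 (pos_iff.1 hn7)
    · exact h0
  rw [hm] at h7''
  set n' : M := (2 * h + 1) * Len h m + 2 with hn'
  set eps : KK M := min ga (min (dl / 2 / 2 / Lam / 2) (dl / 2)) with heps
  have heps' : 0 < eps := lt_min hga' (lt_min (by positivity) (by positivity))
  have heps1 : eps ≤ ga := min_le_left _ _
  have heps2 : eps ≤ dl / 2 / 2 / Lam / 2 := (min_le_right _ _).trans (min_le_left _ _)
  have heps3 : eps ≤ dl / 2 := (min_le_right _ _).trans (min_le_right _ _)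
  have hn'0 : 0 < n' := lt_of_lt_of_le (by exact_mod_cast (two_pos : (0 : M) < 2)) le_add_self
  obtain ⟨S, P, N, hN, hemb⟩ := hB9 M R k n' eps hn'0 heps'
  refine ⟨N, hN, fun E hE hfree hdE => ?_⟩
  set θ : KK M := FW (k + 1) N (fun x => ind M (E x)) with hθ
  have hlt : (2 * h + 1) * Len h m < n' := by
    rw [hn']
    exact lt_add_of_pos_right _ two_pos
  obtain ⟨g, hgR, hg1, hg2, hg3⟩ := hc M R k h n' N m (dl / 2) eps _ _ _ E hk hh0 (by positivity)
    hD hemb heps2 hE (by rw [← hθ]; linarith) hlt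
  obtain ⟨ht1, ht2, ht3, ⟨hL0, hLs, hLm⟩, ht5, ht6⟩ := hT1 M R k h g hgR
  -- the lengths
  have hlen : ∀ z : Wd M, z.len ≤ m → (TTw k g z).len < n' := by
    intro z hz
    have h1 := (ht6 hg2 z).1
    refine lt_of_le_of_lt (h1.trans ?_) hlt
    refine mul_le_mul' ?_ (hLm _ _ hz)
    gcongr
    calc h = 1 * h := (one_mul h).symm
      _ ≤ 2 * h := by gcongr; exact one_le_two
  have hlen1 : ∀ κ, ∀ z ∈ Wlt κ (m + 1), (TTw k g z).len < n' := fun κ z hz =>
    hlen z (lt_succ.1 (mem_Wlt.1 hz).1)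
  have hT0 : Tree k (m + 1) n' (TTw k g) := hT2 M R k (m + 1) n' g hgR hg1 (hlen1 _) (hlen1 _)
  have hTW : Rec R (TTw k g) := by fun_prop
  -- the average
  set u : KK M := θ + 2 * ga with hu
  have hθ0 : 0 < θ := lt_of_lt_of_le hdl hdE
  have h8 : 8 * ga ≤ θ * gam0 := by
    have h1 : 8 * ga = dl * gam0 := by rw [hga]; ring
    rw [h1]
    exact mul_le_mul_of_nonneg_right hdE hgam0'.le
  obtain ⟨ω, hω, hav⟩ := hf M R k n' N m θ u gam0 ga eps _ _ _ E g hk hemb hE hgR hg1 hfree hθ hu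
    hga'.le heps1 h8 hgam0'.le hT0.1 hg3
  set T : Wd M → Wd M := TE P ω with hT
  have hTR : Rec R T := by rw [hT]; fun_prop
  have hTtree : Tree k n' N T := hemb.tree ω hω
  have hu0 : ga ≤ u := by rw [hu]; linarith
  have hm1 : (0 : M) < m + 1 := lt_succ.2 (zero_le' m)
  have hu1 : u ≤ 1 := by
    by_contra hcon
    push Not at hcon
    have h1 : FW (k + 1) (m + 1) (fun z => ind M (¬ DD k E T (TTw k g z)) *
        (ind M (E (T (TTw k g z))) - u)) ≤ 0 := by
      refine (mean_FW R hκ hm1).le_of (by fun_prop) fun z _ => ?_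
      have h2 := ind_nonneg (M := M) (¬ DD k E T (TTw k g z))
      have h3 := ind_le_one (M := M) (E (T (TTw k g z)))
      exact mul_nonpos_of_nonneg_of_nonpos h2 (by linarith)
    linarith
  -- the insensitive sets
  obtain ⟨H, hH, hHavg⟩ := hg M R k n' m u ga E T (TTw k g) hk hga' hE hTR hTW hT0 hav
  set a : Wd M := wd k (fun i => i) with ha
  have ha' : ∀ i < k, a.get i = i := fun i hi => get_wd (R := R) (by fun_prop) hi
  have hHi : ∀ i < k, a.get i < k ∧ Ins k (a.get i) (m + 1) (fun x => x ∈ H i) := by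
    intro i hi
    rw [ha' i hi]
    exact ⟨hi, hH i hi⟩
  have hψ : ∀ x ∈ Wlt (k + 1) (m + 1),
      (ffun (Wlt (k + 1) (m + 1)) (fun z => ind M (E (T (TTw k g z))))) x =
        ind M (E (T (TTw k g x))) := fun x hx => ffun_apply (R := R) (by fun_prop) hx
  obtain ⟨T', hT'1, -, hT'3⟩ := h7'' a H
    (ffun (Wlt (k + 1) (m + 1)) (fun z => ind M (E (T (TTw k g z))))) u hHi
    (fun x hx => by rw [hψ x hx]; exact ⟨ind_nonneg _, ind_le_one _⟩) hu0 hu1 hHavg
  have htc1 := htc k (m' + 1) (m + 1) n' T' (TTw k g) hk hT'1 hT0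
  have htc2 := htc k (m' + 1) n' N (fun z => TTw k g (T' z)) T hk htc1.1 hTtree
  refine ⟨fun z => T (TTw k g (T' z)), by fun_prop, htc2.1, fun i hi => ?_⟩
  have h1 := hT'3 i hi
  have h2 : havg (W (k + 1) i) (fun z => (ffun (Wlt (k + 1) (m + 1))
      (fun z => ind M (E (T (TTw k g z))))) (T' z)) =
      havg (W (k + 1) i) (fun z => ind M (E (T (TTw k g (T' z))))) := by
    refine havg_congr fun z hz => hψ _ (hT'1.1 z ?_)
    exact mem_Wlt_iff.2 ⟨i, lt_succ.2 hi, hz⟩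
  rw [h2] at h1
  rw [hu] at h1
  linarith

end Pool.Agent.OVW
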