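import Pool.Agent.OVW.B.All7
import Pool.Agent.OVW.B14.All
import Pool.Agent.OVW.B8.B81
import Pool.Agent.OVW.B8.B82
import Pool.Agent.OVW.B8.B8
import Pool.Agent.OVW.B8.B91
import Pool.Agent.OVW.B8.B92
import Pool.Agent.OVW.B8.B93
import Pool.Agent.OVW.B8.B94
import Pool.Agent.OVW.B8.B95
import Pool.Agent.OVW.B8.B9
import Pool.Agent.OVW.B8.BT1
import Pool.Agent.OVW.B8.BT2
import Pool.Agent.OVW.B8.BE
import Pool.Agent.OVW.B8.B10a
import Pool.Agent.OVW.B8.B10b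
import Pool.Agent.OVW.B8.B10c
import Pool.Agent.OVW.B8.B10d
import Pool.Agent.OVW.B8.B10e
import Pool.Agent.OVW.B8.B10f
import Pool.Agent.OVW.B8.B10g
import Pool.Agent.OVW.B8.BLN
import Pool.Agent.OVW.B8.BK1
import Pool.Agent.OVW.B8.BKS
import Pool.Agent.OVW.B8.L10
import Pool.Agent.OVW.B8.DCSfin

/-!
# Block B: the density Carlson-Simpson theorem inside a jump pair of worlds (assembly)
-/

namespace Pool.Agent.OVW

theorem b8_B8 : Stmt_B8 := B8_thm B81_thm B82_thm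

theorem b8_B91 : Stmt_B91 := B91_thm b14_PHT

/-- Lemma 9. -/
theorem b8_B9 : Stmt_B9 :=
  B9_thm b8_B91 (B94_thm b8_B91 (B92_thm b8_B8) B93_thm b14_PHC) (B95_thm b8_B91)

/-- Lemma 10. -/
theorem b8_L10 {M : Type} [Arith M] [HasWorld M]
    (R0 R1 : Set (M → M)) [IsWorld R0] [IsWorld R1] (hR : R0 ⊆ R1) (hj : JumpIn R0 R1) :
    StmtL10 R0 :=
  L10_thm b8_B9 BT1_thm (BT2_thm BT1_thm)
    (B10c_thm (B10b_thm (B10a_thm b14_L2 BE_thm) BE_thm) BT1_thm)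
    (B10f_thm B10d_thm BT1_thm (fun _ _ _ R _ => tB02 R)) (B10g_thm B10e_thm) BLN_thm M R0 (tTC M)
    (all7 b14_L4 R0 R1 hR hj)

/-- **The density Carlson-Simpson theorem** in dimension one, inside a jump pair of worlds. -/
theorem dcs : Stmt_DCS :=
  DCSfin_thm (fun _ _ _ R0 R1 _ _ hR hj => b8_L10 R0 R1 hR hj) BK1_thm BKS_thm

end Pool.Agent.OVW
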