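import Pool.Agent.OVW.StmtsB8
import Pool.Agent.OVW.B.Mean

/-!
# Block B, module B10b: the choice of one word
-/

set_option autoImplicit false
set_option linter.unusedSectionVars false

namespace Pool.Agent.OVW

open Classical

namespace B10b

variable {M : Type} [Arith M] [HasWorld M] {R : Set (M → M)} [IsWorld R]

/-- The middle part of a word. -/
theorem drop_mid {u v w : Wd M} {n : M} (hu : u.len = n) : (u ++ (v ++ w)).drop n = v ++ w :=
  drop_append_left hu

theorem drop_end {u v w : Wd M} {n m : M} (hu : u.len = n) (hv : v.len = m) :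
    (u ++ (v ++ w)).drop (n + m) = w := by
  rw [← append_assoc]
  exact drop_append_left (by rw [len_append, hu, hv])

/-- The averages over a long word: only the middle part and the end matter. -/
theorem avg_parts {κ : M} (hκ : 0 < κ) (a s b : M) (q : Wd M → Wd M → Prop)
    (hq : Rec R (fun x : Wd M × Wd M => q x.1 x.2)) :
    havg (W κ (a + (s + b))) (fun Z => ind M (q ((Z.drop a).take s) (Z.drop (a + s)))) =
      havg (W κ s) (fun z => havg (W κ b) (fun Z2 => ind M (q z Z2))) := by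
  rw [havg_W_add (R := R) κ a (s + b)
    (f := fun Z => ind M (q ((Z.drop a).take s) (Z.drop (a + s)))) (by fun_prop)]
  have h1 : ∀ Z1 ∈ W κ a, havg (W κ (s + b)) (fun v => ind M (q (((Z1 ++ v).drop a).take s)
      ((Z1 ++ v).drop (a + s)))) =
      havg (W κ s) (fun z => havg (W κ b) (fun Z2 => ind M (q z Z2))) := by
    intro Z1 hZ1
    rw [havg_W_add (R := R) κ s b (f := fun v => ind M (q (((Z1 ++ v).drop a).take s)
      ((Z1 ++ v).drop (a + s)))) (by fun_prop)]
    refine havg_congr fun z hz => ?_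
    refine havg_congr fun Z2 _ => ?_
    rw [drop_mid (mem_W.1 hZ1).1, drop_end (mem_W.1 hZ1).1 (mem_W.1 hz).1,
      take_append_left (mem_W.1 hz).1]
  rw [havg_congr h1]
  exact havg_const _ (W_nonempty hκ a)

end B10b

open B10b in
/-- B10b: the choice of one word. -/
theorem B10b_thm (ha : Stmt_B10a) (hE : Stmt_BE) : Stmt_B10b := by
  intro M _ _ R _ k h n N s B d eps Ω _ S T E Wf hk hh hd hD hT heps hEr hdE hWf hWfW hn
  have hrT := hT.recT
  have hκ : 0 < k + 1 := lt_succ.2 (zero_le' k)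
  have key := ha M R k h n N s B d eps Ω S T E Wf hk hh hd hD hT heps hEr hdE hWf hWfW hn
  -- the lines
  obtain ⟨Z0, hZ0⟩ := W_nonempty hκ (s * h)
  have hne : ∃ p, p ∈ lineSet k h := by
    obtain ⟨p, hp, _⟩ := key Z0 hZ0
    exact ⟨p, hp⟩
  have hL : (0 : KK M) < (lineSet k h).card := card_cast_pos hne
  set Λ : KK M := ((lineSet k h).card : KK M) with hΛ
  have hη : 0 < d / 2 / Λ / 2 := by positivity
  set η : KK M := d / 2 / Λ / 2 with hηdef
  obtain ⟨p, hp, h1⟩ := hpr_pigeon (R := R) (S := W (k + 1) (s * h)) (T := lineSet k h)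
    (p := fun _ => True)
    (q := fun Z p => η ≤ hpr S (fun ω => DD k E (T ω)
      (Wf ((Z.drop (s * p.1.len)).take s) ++ eW k s Wf (Z.drop (s * (p.1.len + 1))) p.2)))
    (by fun_prop) (by fun_prop) hne (fun Z hZ _ => key Z hZ)
  have h2 : hpr (W (k + 1) (s * h)) (fun _ => True) = 1 := by
    unfold hpr
    simp only [if_true]
    exact havg_const _ ⟨Z0, hZ0⟩
  rw [h2] at h1
  obtain ⟨x, v⟩ := p
  unfold lineSet at hp
  rw [mem_filter (R := R) (by fun_prop), mem_prod] at hp
  obtain ⟨⟨hx, hv⟩, hxv⟩ := hp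
  simp only at hx hv hxv h1
  obtain ⟨q, hq⟩ : ∃ q, h = x.len + 1 + q := by
    refine le_iff_exists_add.1 ?_
    exact le_trans le_self_add hxv.le
  have hvq : v.len ≤ q := by
    rw [hq] at hxv
    exact (lt_of_add_lt_add_left hxv).le
  have hvh : v.len ≤ h := (mem_Wlt.1 hv).1.le
  have e3 : s * h = s * x.len + (s + s * q) := by rw [hq]; ring
  have e4 : ∀ Z : Wd M, Z.drop (s * (x.len + 1)) = Z.drop (s * x.len + s) := by
    intro Z
    rw [mul_add, mul_one]
  have h3 : hpr (W (k + 1) (s * h)) (fun Z => η ≤ hpr S (fun ω => DD k E (T ω)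
      (Wf ((Z.drop (s * x.len)).take s) ++ eW k s Wf (Z.drop (s * (x.len + 1))) v))) =
      havg (W (k + 1) s) (fun z => havg (W (k + 1) (s * q)) (fun Z2 =>
        ind M (η ≤ hpr S (fun ω => DD k E (T ω) (Wf z ++ eW k s Wf Z2 v))))) := by
    rw [e3]
    simp only [e4]
    exact avg_parts (R := R) hκ (s * x.len) s (s * q)
      (fun z Z2 => η ≤ hpr S (fun ω => DD k E (T ω) (Wf z ++ eW k s Wf Z2 v))) (by fun_prop)
  rw [h3, havg_comm (R := R) (f := fun z Z2 =>
    ind M (η ≤ hpr S (fun ω => DD k E (T ω) (Wf z ++ eW k s Wf Z2 v)))) (by fun_prop)] at h1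
  obtain ⟨Z2, hZ2, h4⟩ := exists_le_of_le_havg (R := R) (by fun_prop)
    (W_nonempty hκ (s * q)) h1
  have hvW : v ∈ W (k + 1) v.len := mem_W.2 ⟨rfl, (mem_Wlt.1 hv).2⟩
  obtain ⟨h5, h6⟩ := (hE M R k s Wf hWf).2 B q hWfW Z2 hZ2 v hvW hvq
  refine ⟨eW k s Wf Z2 v, h5, h6.trans (mul_le_mul_left hvh B), ?_⟩
  calc d / 2 / Λ / 2 / Λ = η * (1 / Λ) := by rw [mul_one_div]
    _ ≤ η * havg (W (k + 1) s) (fun z => ind M (η ≤ hpr S (fun ω => DD k E (T ω)
        (Wf z ++ eW k s Wf Z2 v)))) := mul_le_mul_of_nonneg_left h4 hη.le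
    _ = havg (W (k + 1) s) (fun z => η * ind M (η ≤ hpr S (fun ω => DD k E (T ω)
        (Wf z ++ eW k s Wf Z2 v)))) := (havg_mul_left (R := R) η (by fun_prop)).symm
    _ ≤ _ := by
      refine havg_le_havg (R := R) (by fun_prop) (by fun_prop) fun z _ => ?_
      by_cases hz : η ≤ hpr S (fun ω => DD k E (T ω) (Wf z ++ eW k s Wf Z2 v))
      · rw [ind_true hz, mul_one]
        exact hz
      · rw [ind_false hz, mul_zero]
        exact hpr_nonneg (R := R) (by fun_prop)

end Pool.Agent.OVW
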